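import Pool.Agent.KC2.Taylor
import Pool.Agent.HypJac.Der

/-! The function field of the plane, orders along curves, the bracket. -/

set_option autoImplicit false

noncomputable section

namespace Pool.Agent.KBir

open MvPolynomial Pool.Agent.KC2

abbrev K2 := FractionRing A2

/-- the inclusion -/
def io : A2 →ₐ[ℂ] K2 := IsScalarTower.toAlgHom ℂ A2 K2

lemma io_inj : Function.Injective io := IsFractionRing.injective A2 K2

lemma io_ne {a : A2} (h : a ≠ 0) : io a ≠ 0 := by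
  intro h'; exact h (io_inj (by rw [h', map_zero]))

lemma exists_frac (h : K2) : ∃ a b : A2, b ≠ 0 ∧ h * io b = io a := by
  obtain ⟨a, b, hb, rfl⟩ := IsFractionRing.div_surjective (A := A2) h
  have hb0 : b ≠ 0 := nonZeroDivisors.ne_zero hb
  refine ⟨a, b, hb0, ?_⟩
  exact div_mul_cancel₀ _ (io_ne hb0)

/-- the partial derivatives of the function field -/
def dK (i : Fin 2) : Derivation ℂ K2 K2 :=
  Classical.choose (Pool.Agent.HypJac.exists_derivation_frac (K := K2) (pderiv i : Derivation ℂ A2 A2))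

lemma dK_io (i : Fin 2) (a : A2) : dK i (io a) = io (pderiv i a) :=
  Classical.choose_spec
    (Pool.Agent.HypJac.exists_derivation_frac (K := K2) (pderiv i : Derivation ℂ A2 A2)) a

/-- the Jacobian bracket -/
def brK (f g : K2) : K2 := dK 0 f * dK 1 g - dK 1 f * dK 0 g

/-- regular along the curve `π = 0` -/
def Reg (π : A2) (h : K2) : Prop := ∃ a b : A2, ¬ π ∣ b ∧ h * io b = io a

/-- vanishing along the curve `π = 0` -/
def Van (π : A2) (h : K2) : Prop := ∃ r : K2, Reg π r ∧ h = io π * r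

/-- order along `π = 0` -/
def HasOrd (π : A2) (h : K2) (n : ℤ) : Prop :=
  ∃ a b : A2, ¬ π ∣ a ∧ ¬ π ∣ b ∧ h * io b = io π ^ n * io a

variable {π : A2}

lemma Reg.of_poly (hπ : Prime π) (a : A2) : Reg π (io a) :=
  ⟨a, 1, fun h => hπ.not_unit (isUnit_of_dvd_one h), by rw [map_one, mul_one]⟩

lemma Reg.zero (hπ : Prime π) : Reg π 0 := by
  have := Reg.of_poly hπ 0
  rwa [map_zero] at this

lemma Reg.one (hπ : Prime π) : Reg π 1 := by
  have := Reg.of_poly hπ 1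
  rwa [map_one] at this

lemma Reg.const (hπ : Prime π) (c : ℂ) : Reg π (algebraMap ℂ K2 c) := by
  have := Reg.of_poly hπ (C c)
  rwa [← algebraMap_eq, AlgHom.commutes] at this

lemma Reg.mul (hπ : Prime π) {f g : K2} (hf : Reg π f) (hg : Reg π g) : Reg π (f * g) := by
  obtain ⟨a, b, hb, h1⟩ := hf
  obtain ⟨c, d, hd, h2⟩ := hg
  refine ⟨a * c, b * d, fun h => (hπ.dvd_or_dvd h).elim hb hd, ?_⟩
  rw [map_mul, map_mul, ← h1, ← h2]; ring

lemma Reg.add (hπ : Prime π) {f g : K2} (hf : Reg π f) (hg : Reg π g) : Reg π (f + g) := by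
  obtain ⟨a, b, hb, h1⟩ := hf
  obtain ⟨c, d, hd, h2⟩ := hg
  refine ⟨a * d + c * b, b * d, fun h => (hπ.dvd_or_dvd h).elim hb hd, ?_⟩
  rw [map_mul, map_add, map_mul, map_mul, ← h1, ← h2]; ring

lemma Reg.neg (hπ : Prime π) {f : K2} (hf : Reg π f) : Reg π (-f) := by
  obtain ⟨a, b, hb, h1⟩ := hf
  exact ⟨-a, b, hb, by rw [map_neg, ← h1]; ring⟩

lemma Reg.sub (hπ : Prime π) {f g : K2} (hf : Reg π f) (hg : Reg π g) : Reg π (f - g) := by
  rw [sub_eq_add_neg]; exact hf.add hπ (hg.neg hπ)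

lemma Reg.pow (hπ : Prime π) {f : K2} (hf : Reg π f) (n : ℕ) : Reg π (f ^ n) := by
  induction n with
  | zero => rw [pow_zero]; exact Reg.one hπ
  | succ n ih => rw [pow_succ]; exact ih.mul hπ hf

lemma Reg.sum (hπ : Prime π) {ι : Type*} (s : Finset ι) (f : ι → K2) (h : ∀ i ∈ s, Reg π (f i)) :
    Reg π (∑ i ∈ s, f i) := by
  classical
  induction s using Finset.induction_on with
  | empty => simpa using Reg.zero hπ
  | insert i s hi ih =>
    rw [Finset.sum_insert hi]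
    exact (h i (Finset.mem_insert_self _ _)).add hπ (ih fun j hj => h j (Finset.mem_insert_of_mem hj))

lemma Van.reg (hπ : Prime π) {f : K2} (hf : Van π f) : Reg π f := by
  obtain ⟨r, hr, rfl⟩ := hf
  exact (Reg.of_poly hπ π).mul hπ hr

lemma Van.zero (hπ : Prime π) : Van π 0 := ⟨0, Reg.zero hπ, by simp⟩

lemma Van.add (hπ : Prime π) {f g : K2} (hf : Van π f) (hg : Van π g) : Van π (f + g) := by
  obtain ⟨r, hr, rfl⟩ := hf
  obtain ⟨s, hs, rfl⟩ := hg
  exact ⟨r + s, hr.add hπ hs, by ring⟩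

lemma Van.neg (hπ : Prime π) {f : K2} (hf : Van π f) : Van π (-f) := by
  obtain ⟨r, hr, rfl⟩ := hf
  exact ⟨-r, hr.neg hπ, by ring⟩

lemma Van.sub (hπ : Prime π) {f g : K2} (hf : Van π f) (hg : Van π g) : Van π (f - g) := by
  rw [sub_eq_add_neg]; exact hf.add hπ (hg.neg hπ)

lemma Van.mul_reg (hπ : Prime π) {f g : K2} (hf : Van π f) (hg : Reg π g) : Van π (f * g) := by
  obtain ⟨r, hr, rfl⟩ := hf
  exact ⟨r * g, hr.mul hπ hg, by ring⟩

lemma Van.reg_mul (hπ : Prime π) {f g : K2} (hf : Van π f) (hg : Reg π g) : Van π (g * f) := by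
  rw [mul_comm]; exact hf.mul_reg hπ hg

lemma van_iff (hπ : Prime π) (f : K2) : Van π f ↔ ∃ a b : A2, ¬ π ∣ b ∧ f * io b = io (π * a) := by
  constructor
  · rintro ⟨r, ⟨a, b, hb, h⟩, rfl⟩
    exact ⟨a, b, hb, by rw [map_mul, ← h]; ring⟩
  · rintro ⟨a, b, hb, h⟩
    have hb0 : io b ≠ 0 := io_ne (fun h0 => hb (h0 ▸ dvd_zero _))
    refine ⟨io a / io b, ⟨a, b, hb, div_mul_cancel₀ _ hb0⟩, ?_⟩
    rw [map_mul] at h
    field_simp
    exact h

lemma van_poly_iff (hπ : Prime π) (a : A2) : Van π (io a) ↔ π ∣ a := by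
  rw [van_iff hπ]
  constructor
  · rintro ⟨c, b, hb, h⟩
    rw [← map_mul] at h
    have := io_inj h
    exact (hπ.dvd_or_dvd (this ▸ dvd_mul_right π c)).resolve_right hb
  · rintro ⟨c, rfl⟩
    exact ⟨c, 1, fun h => hπ.not_unit (isUnit_of_dvd_one h), by rw [map_one, mul_one]⟩

lemma Van.mul_cases (hπ : Prime π) {f g : K2} (hf : Reg π f) (hg : Reg π g)
    (h : Van π (f * g)) : Van π f ∨ Van π g := by
  obtain ⟨a, b, hb, h1⟩ := hf
  obtain ⟨c, d, hd, h2⟩ := hg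
  obtain ⟨u, w, hw, h3⟩ := (van_iff hπ _).1 h
  have e : a * c * w = π * (u * (b * d)) := by
    apply io_inj
    rw [map_mul, map_mul, ← h1, ← h2, map_mul, map_mul, map_mul]
    rw [map_mul] at h3
    linear_combination (io b * io d) * h3
  have hdiv : π ∣ a * c := (hπ.dvd_or_dvd (e ▸ dvd_mul_right π _)).resolve_right hw
  rcases hπ.dvd_or_dvd hdiv with ⟨a', rfl⟩ | ⟨c', rfl⟩
  · left; exact (van_iff hπ _).2 ⟨a', b, hb, h1⟩
  · right; exact (van_iff hπ _).2 ⟨c', d, hd, h2⟩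

lemma not_van_const (hπ : Prime π) {c : ℂ} (hc : c ≠ 0) : ¬ Van π (algebraMap ℂ K2 c) := by
  intro h
  have e : algebraMap ℂ K2 c = io (C c) := by
    rw [← algebraMap_eq, AlgHom.commutes]
  rw [e, van_poly_iff hπ] at h
  apply hπ.not_unit
  refine isUnit_of_dvd_unit h ?_
  exact (isUnit_iff_ne_zero.2 hc).map C

lemma not_van_one (hπ : Prime π) : ¬ Van π (1 : K2) := by
  have := not_van_const hπ one_ne_zero
  rwa [map_one] at this

/-! ### derivatives -/

lemma Reg.dK (hπ : Prime π) {f : K2} (hf : Reg π f) (i : Fin 2) : Reg π (dK i f) := by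
  obtain ⟨a, b, hb, h⟩ := hf
  have h1 := congrArg (KBir.dK i) h
  rw [Derivation.leibniz, dK_io, dK_io, smul_eq_mul, smul_eq_mul] at h1
  refine ⟨pderiv i a * b - a * pderiv i b, b * b, fun h => (hπ.dvd_or_dvd h).elim hb hb, ?_⟩
  rw [map_mul, map_sub, map_mul, map_mul, ← h, ← h1]; ring

lemma Reg.brK (hπ : Prime π) {f g : K2} (hf : Reg π f) (hg : Reg π g) : Reg π (brK f g) :=
  ((hf.dK hπ 0).mul hπ (hg.dK hπ 1)).sub hπ ((hf.dK hπ 1).mul hπ (hg.dK hπ 0))

lemma brK_mul_right (f g h : K2) : brK f (g * h) = brK f g * h + g * brK f h := by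
  simp only [brK, Derivation.leibniz, smul_eq_mul]; ring

lemma brK_mul_left (f g h : K2) : brK (f * g) h = brK f h * g + f * brK g h := by
  simp only [brK, Derivation.leibniz, smul_eq_mul]; ring

lemma brK_self (f : K2) : brK f f = 0 := by simp only [brK]; ring

lemma brK_anti (f g : K2) : brK f g = - brK g f := by simp only [brK]; ring

lemma brK_sub_const (f g : K2) (c : ℂ) : brK f (g - algebraMap ℂ K2 c) = brK f g := by
  simp only [brK, map_sub, Derivation.map_algebraMap, sub_zero]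

/-- the derivation `{π, ·}` preserves the ideal of the curve -/
lemma Van.brK_left (hπ : Prime π) {f : K2} (hf : Van π f) : Van π (brK (io π) f) := by
  obtain ⟨r, hr, rfl⟩ := hf
  rw [brK_mul_right, brK_self, zero_mul, zero_add]
  exact ⟨_, (Reg.of_poly hπ π).brK hπ hr, rfl⟩

/-! ### orders -/

lemma exists_ord (hπ : Prime π) {h : K2} (hh : h ≠ 0) : ∃ n, HasOrd π h n := by
  have key : ∀ a : A2, a ≠ 0 → ∃ (k : ℕ) (a' : A2), ¬ π ∣ a' ∧ a = π ^ k * a' := by
    intro a ha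
    obtain ⟨k, a', h1, h2⟩ := WfDvdMonoid.max_power_factor ha hπ.irreducible
    exact ⟨k, a', h1, h2⟩
  obtain ⟨a, b, hb, e⟩ := exists_frac h
  have ha : a ≠ 0 := by
    rintro rfl
    rw [map_zero] at e
    exact (mul_ne_zero hh (io_ne hb)) e
  obtain ⟨k, a', ha', rfl⟩ := key a ha
  obtain ⟨l, b', hb', rfl⟩ := key b hb
  refine ⟨(k : ℤ) - l, a', b', ha', hb', ?_⟩
  have hp : io π ≠ 0 := io_ne hπ.ne_zero
  rw [zpow_sub₀ hp, zpow_natCast, zpow_natCast]
  rw [map_mul, map_mul, map_pow, map_pow] at e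
  field_simp
  linear_combination e

lemma HasOrd.ne_zero (hπ : Prime π) {h : K2} {n : ℤ} (hn : HasOrd π h n) : h ≠ 0 := by
  obtain ⟨a, b, ha, hb, e⟩ := hn
  rintro rfl
  rw [zero_mul] at e
  have ha0 : io a ≠ 0 := io_ne (fun h0 => ha (h0 ▸ dvd_zero _))
  exact (mul_ne_zero (zpow_ne_zero _ (io_ne hπ.ne_zero)) ha0) e.symm

lemma HasOrd.mul (hπ : Prime π) {f g : K2} {m n : ℤ} (hf : HasOrd π f m) (hg : HasOrd π g n) :
    HasOrd π (f * g) (m + n) := by
  obtain ⟨a, b, ha, hb, e1⟩ := hf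
  obtain ⟨c, d, hc, hd, e2⟩ := hg
  refine ⟨a * c, b * d, fun h => (hπ.dvd_or_dvd h).elim ha hc,
    fun h => (hπ.dvd_or_dvd h).elim hb hd, ?_⟩
  rw [zpow_add₀ (io_ne hπ.ne_zero), map_mul, map_mul]
  linear_combination (g * io d) * e1 + (io π ^ m * io a) * e2

lemma HasOrd.inv (hπ : Prime π) {f : K2} {m : ℤ} (hf : HasOrd π f m) : HasOrd π f⁻¹ (-m) := by
  have hf0 := hf.ne_zero hπ
  obtain ⟨a, b, ha, hb, e1⟩ := hf
  refine ⟨b, a, hb, ha, ?_⟩
  have hp := io_ne hπ.ne_zero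
  rw [zpow_neg]
  have hpm : io π ^ m ≠ 0 := zpow_ne_zero _ hp
  field_simp
  linear_combination (-1 : K2) * e1

lemma HasOrd.unique (hπ : Prime π) {f : K2} {m n : ℤ} (hf : HasOrd π f m) (hg : HasOrd π f n) :
    m = n := by
  have key : ∀ {k l : ℤ}, HasOrd π f k → HasOrd π f l → ¬ k < l := by
    rintro k l ⟨a, b, ha, hb, e1⟩ ⟨c, d, hc, hd, e2⟩ hlt
    obtain ⟨j, hj⟩ := Int.eq_ofNat_of_zero_le (by omega : 0 ≤ l - k - 1)
    have hl : l = k + (j + 1 : ℕ) := by push_cast; omega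
    have hp := io_ne hπ.ne_zero
    have hpk : io π ^ k ≠ 0 := zpow_ne_zero _ hp
    rw [hl, zpow_add₀ hp, zpow_natCast] at e2
    have e3 : io π ^ k * io (a * d) = io π ^ k * io (π * (π ^ j * (c * b))) := by
      simp only [map_mul, map_pow]
      rw [pow_succ] at e2
      linear_combination (-io d) * e1 + io b * e2
    have e4 := io_inj (mul_left_cancel₀ hpk e3)
    exact (hπ.dvd_or_dvd (e4 ▸ dvd_mul_right π _)).elim ha hd
  have h1 := key hf hg
  have h2 := key hg hf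
  omega

lemma hasOrd_pow (hπ : Prime π) (n : ℤ) : HasOrd π (io π ^ n) n :=
  ⟨1, 1, fun h => hπ.not_unit (isUnit_of_dvd_one h), fun h => hπ.not_unit (isUnit_of_dvd_one h), by simp⟩

lemma hasOrd_self (hπ : Prime π) : HasOrd π (io π) 1 := by
  have := hasOrd_pow hπ 1
  rwa [zpow_one] at this

lemma hasOrd_zero_iff (hπ : Prime π) {f : K2} : HasOrd π f 0 ↔ Reg π f ∧ ¬ Van π f := by
  constructor
  · rintro ⟨a, b, ha, hb, e⟩
    rw [zpow_zero, one_mul] at e
    refine ⟨⟨a, b, hb, e⟩, ?_⟩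
    intro hv
    have := hv.mul_reg hπ (Reg.of_poly hπ b)
    rw [e, van_poly_iff hπ] at this
    exact ha this
  · rintro ⟨⟨a, b, hb, e⟩, hv⟩
    refine ⟨a, b, ?_, hb, by rw [zpow_zero, one_mul, e]⟩
    rintro ⟨a', rfl⟩
    exact hv ((van_iff hπ _).2 ⟨a', b, hb, e⟩)

lemma HasOrd.reg (hπ : Prime π) {f : K2} {n : ℤ} (hf : HasOrd π f n) (hn : 0 ≤ n) : Reg π f := by
  obtain ⟨a, b, ha, hb, e⟩ := hf
  obtain ⟨k, rfl⟩ := Int.eq_ofNat_of_zero_le hn
  refine ⟨π ^ k * a, b, hb, ?_⟩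
  rw [map_mul, map_pow, e]; simp

lemma HasOrd.van (hπ : Prime π) {f : K2} {n : ℤ} (hf : HasOrd π f n) (hn : 0 < n) : Van π f := by
  obtain ⟨a, b, ha, hb, e⟩ := hf
  obtain ⟨k, hk⟩ := Int.eq_ofNat_of_zero_le (by omega : 0 ≤ n - 1)
  have : n = ((k + 1 : ℕ) : ℤ) := by push_cast; omega
  subst this
  rw [van_iff hπ]
  refine ⟨π ^ k * a, b, hb, ?_⟩
  rw [e, zpow_natCast, map_mul, map_mul, map_pow, pow_succ]; ring

lemma ord_nonneg_of_reg (hπ : Prime π) {f : K2} {n : ℤ} (hf : HasOrd π f n) (hr : Reg π f) :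
    0 ≤ n := by
  by_contra hneg
  push Not at hneg
  have h1 := (hf.mul hπ (hasOrd_pow hπ (-n)))
  rw [add_neg_cancel] at h1
  have h2 := (hasOrd_zero_iff hπ).1 h1
  apply h2.2
  exact ((hasOrd_pow hπ (-n)).van hπ (by omega)).reg_mul hπ hr

lemma ord_pos_of_van (hπ : Prime π) {f : K2} {n : ℤ} (hf : HasOrd π f n) (hr : Van π f) :
    0 < n := by
  have h0 := ord_nonneg_of_reg hπ hf (hr.reg hπ)
  rcases h0.eq_or_lt with h | h
  · subst h
    exact absurd hr ((hasOrd_zero_iff hπ).1 hf).2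
  · exact h

/-- factor out the order -/
lemma HasOrd.factor (hπ : Prime π) {f : K2} {n : ℤ} (hf : HasOrd π f n) :
    ∃ u : K2, f = io π ^ n * u ∧ HasOrd π u 0 := by
  refine ⟨io π ^ (-n) * f, ?_, ?_⟩
  · rw [← mul_assoc, ← zpow_add₀ (io_ne hπ.ne_zero)]; simp
  · have := (hasOrd_pow hπ (-n)).mul hπ hf
    rwa [neg_add_cancel] at this

lemma hasOrd_zero_poly (hπ : Prime π) {a : A2} (ha : ¬ π ∣ a) : HasOrd π (io a) 0 := by
  rw [hasOrd_zero_iff hπ, van_poly_iff hπ]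
  exact ⟨Reg.of_poly hπ a, ha⟩

end Pool.Agent.KBir
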