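import Pool.Agent.KBir.Div

/-! The divisors of the two coordinate functions. -/

set_option autoImplicit false

noncomputable section

namespace Pool.Agent.KBir

open MvPolynomial Pool.Agent.KC2

lemma prime_X (s : Fin 2) : Prime (X s : A2) := MvPolynomial.X_prime

lemma X_not_dvd {s t : Fin 2} (h : s ≠ t) : ¬ (X s : A2) ∣ X t := by
  intro hd
  rw [X_dvd_X] at hd
  exact h hd

/-- a rational map `v = (φ (X 0), φ (X 1))` with bracket one which is the identity on the axes -/
structure Setup (φ : K2 →ₐ[ℂ] K2) : Prop where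
  hbr : brK (φ (io (X 0))) (φ (io (X 1))) = 1
  hcr : ∀ i s : Fin 2, Van (X s) (φ (io (X i)) - io (X i))
  hcr2 : ∀ i : Fin 2, ∃ r, Reg (X 0) r ∧ Reg (X 1) r ∧ φ (io (X i)) = io (X i) + io (X 0 * X 1) * r

variable {φ : K2 →ₐ[ℂ] K2}

lemma Setup.brst (h : Setup φ) {s t : Fin 2} (hst : s ≠ t) : ∃ κ : ℂ, κ ≠ 0 ∧
    brK (φ (io (X s))) (φ (io (X t))) = algebraMap ℂ K2 κ := by
  have h01 := h.hbr
  revert hst
  fin_cases s <;> fin_cases t
  · intro h; exact absurd rfl h
  · intro _; exact ⟨1, one_ne_zero, by rw [map_one]; exact h01⟩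
  · intro _
    refine ⟨-1, by norm_num, ?_⟩
    rw [map_neg, map_one]
    show brK (φ (io (X 1))) (φ (io (X 0))) = -1
    rw [brK_anti, h01]
  · intro h; exact absurd rfl h

/-- order of the coordinate functions along the axes -/
lemma Setup.ord_axis (h : Setup φ) (s : Fin 2) : HasOrd (X s) (φ (io (X s))) 1 := by
  obtain ⟨r, hr0, hr1, e⟩ := h.hcr2 s
  have hs := prime_X s
  have hrs : Reg (X s) r := by
    fin_cases s
    · exact hr0
    · exact hr1
  have e' : φ (io (X s)) = io (X s) * (1 + io (X (1 - s)) * r) := by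
    rw [e]
    fin_cases s
    · simp only [map_mul, Fin.zero_eta, Fin.isValue, sub_zero]; ring
    · simp only [map_mul, Fin.mk_one, Fin.isValue, sub_self]; ring
  have hv : Van (X s) (φ (io (X s))) := by
    have := (h.hcr s s).add hs ⟨1, Reg.one hs, by rw [mul_one]⟩ (g := io (X s))
    rwa [sub_add_cancel] at this
  -- the second factor is a unit: `φ (X s) - X s` vanishes to the first order only through `X (1-s)`
  have h2 : HasOrd (X s) (1 + io (X (1 - s)) * r) 0 := by
    rw [hasOrd_zero_iff hs]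
    have hreg : Reg (X s) (1 + io (X (1 - s)) * r) :=
      (Reg.one hs).add hs ((Reg.of_poly hs _).mul hs hrs)
    refine ⟨hreg, fun hvan => ?_⟩
    -- use that the bracket is one and that `φ (X t) - X t` vanishes
    obtain ⟨κ, hκ, hb⟩ := h.brst (s := s) (t := 1 - s) (by fin_cases s <;> decide)
    obtain ⟨w, hw, ew⟩ := hvan
    have hvan2 : φ (io (X s)) = io (X s) * (io (X s) * w) := by rw [e', ew]
    have hst : Reg (X s) (φ (io (X (1 - s)))) := by
      have := ((h.hcr (1 - s) s).reg hs).add hs (Reg.of_poly hs (X (1 - s)))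
      rwa [sub_add_cancel] at this
    rw [hvan2, brK_mul_left, brK_mul_left] at hb
    apply not_van_const hs hκ
    rw [← hb]
    have hX : Van (X s) (io (X s)) := ⟨1, Reg.one hs, by rw [mul_one]⟩
    have hXr := Reg.of_poly hs (X s)
    refine Van.add hs ?_ ?_
    · have e3 : brK (io (X s)) (φ (io (X (1 - s)))) * (io (X s) * w)
          = io (X s) * (brK (io (X s)) (φ (io (X (1 - s)))) * w) := by ring
      rw [e3]; exact hX.mul_reg hs ((hXr.brK hs hst).mul hs hw)
    · exact hX.mul_reg hs (((hXr.brK hs hst).mul hs hw).add hs (hXr.mul hs (hw.brK hs hst)))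
  rw [e']
  have := (hasOrd_self hs).mul hs h2
  rwa [add_zero] at this

/-- Along a curve other than the axes, it is impossible that one coordinate function vanishes and
the other one is regular. -/
theorem Setup.no_van (h : Setup φ) (hsurj : Function.Surjective φ) {π : A2} (hπ : Prime π)
    {s t : Fin 2} (hst : t ≠ s) (hs' : ¬ X s ∣ π) (hs : Van π (φ (io (X s)))) (ht : Reg π (φ (io (X t)))) : False := by
  obtain ⟨κ, hκ, hb⟩ := h.brst (Ne.symm hst)
  have hX := prime_X s
  have hc : ∀ c : ℂ, ¬ Van π (φ (io (X t)) - algebraMap ℂ K2 c) := fun c =>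
    not_van_sub_const hπ _ _ κ hκ hs hb c
  have hne : φ (io (X s)) ≠ 0 := by
    intro h0
    exact io_ne (X_ne_zero s) ((φ : K2 →+* K2).injective (by rw [map_zero]; exact h0))
  obtain ⟨e, he⟩ := exists_ord hπ hne
  have hvX : Van (X s) (φ (io (X s))) := (h.ord_axis s).van hX one_pos
  have hrX : Reg (X s) (φ (io (X t))) := by
    have := ((h.hcr t s).reg hX).add hX (Reg.of_poly hX (X t))
    rwa [sub_add_cancel] at this
  have hcX : ∀ c : ℂ, ¬ Van (X s) (φ (io (X t)) - algebraMap ℂ K2 c) := fun c =>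
    not_van_sub_const hX _ _ κ hκ hvX hb c
  -- the element with image `π`
  obtain ⟨k, hk⟩ := hsurj (io π)
  have hk0 : k ≠ 0 := by
    intro h0
    rw [h0, map_zero] at hk
    exact io_ne hπ.ne_zero hk.symm
  obtain ⟨n, hn⟩ := exists_ord hX hk0
  have h1' := ord_frac hπ φ hst hs he ht hc _ n hn
  have h2' := ord_frac hX φ hst hvX (h.ord_axis s) hrX hcX _ n hn
  rw [hk] at h1' h2'
  have e1 := h1'.unique hπ (hasOrd_self hπ)
  have e2 := h2'.unique hX (hasOrd_zero_poly hX hs')
  rw [mul_one] at e2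
  rw [e2, zero_mul] at e1
  exact absurd e1 (by norm_num)

end Pool.Agent.KBir
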