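import Pool.Agent.KBir.Basic

/-! No curve other than an axis is contracted or mapped to an axis. -/

set_option autoImplicit false

noncomputable section

namespace Pool.Agent.KBir

open MvPolynomial Pool.Agent.KC2

variable {π : A2}

lemma Reg.aeval (hπ : Prime π) (v : Fin 2 → K2) (hv : ∀ i, Reg π (v i)) (P : A2) :
    Reg π (aeval v P) := by
  induction P using MvPolynomial.induction_on with
  | C a =>
    rw [aeval_C]; exact Reg.const hπ a
  | add p q hp hq => rw [map_add]; exact hp.add hπ hq
  | mul_X p i hp => rw [map_mul, aeval_X]; exact hp.mul hπ (hv i)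

/-- chain rule in the function field -/
lemma dK_aeval (i : Fin 2) (v : Fin 2 → K2) (P : A2) :
    dK i (aeval v P) = aeval v (pderiv 0 P) * dK i (v 0) + aeval v (pderiv 1 P) * dK i (v 1) := by
  induction P using MvPolynomial.induction_on with
  | C a => simp
  | add p q hp hq => simp only [map_add, hp, hq]; ring
  | mul_X p j hp =>
    simp only [map_mul, aeval_X, Derivation.leibniz, smul_eq_mul, map_add, pderiv_X, hp]
    fin_cases j
    · simp [Pi.single_apply]; ring
    · simp [Pi.single_apply]; ring

lemma brK_aeval (v : Fin 2 → K2) (P Q : A2) :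
    brK (aeval v P) (aeval v Q) = aeval v (br P Q) * brK (v 0) (v 1) := by
  simp only [brK, dK_aeval, br, map_sub, map_mul]; ring

/-- if `v s` vanishes and `v t` is regular along the curve, `v t` is not constant on it -/
lemma not_van_sub_const (hπ : Prime π) (f g : K2) (κ : ℂ) (hκ : κ ≠ 0) (hf : Van π f)
    (hbr : brK f g = algebraMap ℂ K2 κ) (c : ℂ) : ¬ Van π (g - algebraMap ℂ K2 c) := by
  rintro ⟨r', hr', e'⟩
  obtain ⟨r, hr, rfl⟩ := hf
  have h1 : brK (io π * r) (g - algebraMap ℂ K2 c) = algebraMap ℂ K2 κ := by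
    rw [brK_sub_const, hbr]
  rw [e', brK_mul_left, brK_mul_right, brK_mul_right, brK_self] at h1
  apply not_van_const hπ hκ
  rw [← h1]
  have hπr := Reg.of_poly hπ π
  have hv : Van π (io π) := ⟨1, Reg.one hπ, by rw [mul_one]⟩
  refine Van.add hπ ?_ ?_
  · have e : (0 * r' + io π * brK (io π) r') * r = io π * (brK (io π) r' * r) := by ring
    rw [e]; exact hv.mul_reg hπ ((hπr.brK hπ hr').mul hπ hr)
  · exact hv.mul_reg hπ (((hr.brK hπ hπr).mul hπ hr').add hπ (hπr.mul hπ (hr.brK hπ hr')))

/-- restriction to the line `X s = 0` -/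
def lin (s : Fin 2) : A2 →ₐ[ℂ] Polynomial ℂ := aeval (fun i => if i = s then 0 else Polynomial.X)

lemma lin_dvd {s t : Fin 2} (hst : t ≠ s) (P : A2) : X s ∣ P - Polynomial.aeval (X t : A2) (lin s P) := by
  have ht : ∀ i : Fin 2, i ≠ s → i = t := by
    intro i hi; revert hst hi; fin_cases s <;> fin_cases t <;> fin_cases i <;> simp
  induction P using MvPolynomial.induction_on with
  | C a => simp [lin]
  | add p q hp hq =>
    have := dvd_add hp hq
    rw [map_add, map_add]
    convert this using 1; ring
  | mul_X p i hp =>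
    by_cases hi : i = s
    · subst hi
      have : lin i (p * X i) = 0 := by simp [lin]
      rw [this, map_zero, sub_zero]
      exact dvd_mul_left _ _
    · have hl : lin s (X i) = Polynomial.X := by simp [lin, hi]
      rw [map_mul, map_mul, hl, Polynomial.aeval_X, ← ht i hi]
      have e : p * X i - Polynomial.aeval (X i : A2) (lin s p) * X i
          = (p - Polynomial.aeval (X i : A2) (lin s p)) * X i := by ring
      rw [e]
      rw [ht i hi] 
      exact Dvd.dvd.mul_right hp _

lemma lin_ne_zero {s t : Fin 2} (hst : t ≠ s) (P : A2) (hP : ¬ X s ∣ P) : lin s P ≠ 0 := by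
  intro h
  apply hP
  have := lin_dvd hst P
  rwa [h, map_zero, sub_zero] at this

lemma van_aeval_sub (hπ : Prime π) (v : Fin 2 → K2) {s t : Fin 2} (hst : t ≠ s)
    (hs : Van π (v s)) (ht : Reg π (v t)) (P : A2) :
    Van π (aeval v P - Polynomial.aeval (v t) (lin s P)) := by
  have htt : ∀ i : Fin 2, i ≠ s → i = t := by
    intro i hi; revert hst hi; fin_cases s <;> fin_cases t <;> fin_cases i <;> simp
  have hv : ∀ i, Reg π (v i) := by
    intro i
    by_cases hi : i = s
    · subst hi; exact hs.reg hπ
    · rw [htt i hi]; exact ht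
  induction P using MvPolynomial.induction_on with
  | C a =>
    have : aeval v (C a) - Polynomial.aeval (v t) (lin s (C a)) = 0 := by simp [lin]
    rw [this]; exact Van.zero hπ
  | add p q hp hq =>
    have := hp.add hπ hq
    rw [map_add, map_add, map_add]
    convert this using 1; ring
  | mul_X p i hp =>
    by_cases hi : i = s
    · subst hi
      have : lin i (p * X i) = 0 := by simp [lin]
      rw [this, map_zero, sub_zero, map_mul, aeval_X]
      exact hs.reg_mul hπ (Reg.aeval hπ v hv p)
    · have hl : lin s (X i) = Polynomial.X := by simp [lin, hi]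
      rw [map_mul, map_mul, map_mul, hl, Polynomial.aeval_X, aeval_X, htt i hi, ← sub_mul]
      exact hp.mul_reg hπ ht

lemma not_van_poly (hπ : Prime π) (g : K2) (hg : Reg π g)
    (hc : ∀ c : ℂ, ¬ Van π (g - algebraMap ℂ K2 c)) (p : Polynomial ℂ) (hp : p ≠ 0) :
    ¬ Van π (Polynomial.aeval g p) := by
  have hsplit : p = Polynomial.C p.leadingCoeff * (p.roots.map fun a => Polynomial.X - Polynomial.C a).prod :=
    (IsAlgClosed.splits p).eq_prod_roots
  rw [hsplit, map_mul, Polynomial.aeval_C]
  have hlc : p.leadingCoeff ≠ 0 := by rwa [Ne, Polynomial.leadingCoeff_eq_zero]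
  have hprod : ∀ m : Multiset ℂ,
      HasOrd π (Polynomial.aeval g ((m.map fun a => Polynomial.X - Polynomial.C a).prod)) 0 := by
    intro m
    induction m using Multiset.induction_on with
    | empty =>
      simp only [Multiset.map_zero, Multiset.prod_zero, map_one]
      rw [hasOrd_zero_iff hπ]; exact ⟨Reg.one hπ, not_van_one hπ⟩
    | cons a m ih =>
      rw [Multiset.map_cons, Multiset.prod_cons, map_mul]
      have h1 : HasOrd π (Polynomial.aeval g (Polynomial.X - Polynomial.C a)) 0 := by
        rw [map_sub, Polynomial.aeval_X, Polynomial.aeval_C, hasOrd_zero_iff hπ]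
        exact ⟨hg.sub hπ (Reg.const hπ a), hc a⟩
      have := h1.mul hπ ih
      rwa [add_zero] at this
  have h0 : HasOrd π (algebraMap ℂ K2 p.leadingCoeff) 0 := by
    rw [hasOrd_zero_iff hπ]; exact ⟨Reg.const hπ _, not_van_const hπ hlc⟩
  have := h0.mul hπ (hprod p.roots)
  rw [add_zero] at this
  exact ((hasOrd_zero_iff hπ).1 this).2

/-- Orders of polynomials not divisible by `X s`. -/
lemma ord_aeval_zero (hπ : Prime π) (v : Fin 2 → K2) {s t : Fin 2} (hst : t ≠ s)
    (hs : Van π (v s)) (ht : Reg π (v t)) (hc : ∀ c : ℂ, ¬ Van π (v t - algebraMap ℂ K2 c))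
    (P : A2) (hP : ¬ X s ∣ P) : HasOrd π (aeval v P) 0 := by
  have htt : ∀ i : Fin 2, i ≠ s → i = t := by
    intro i hi; revert hst hi; fin_cases s <;> fin_cases t <;> fin_cases i <;> simp
  have hv : ∀ i, Reg π (v i) := by
    intro i
    by_cases hi : i = s
    · subst hi; exact hs.reg hπ
    · rw [htt i hi]; exact ht
  rw [hasOrd_zero_iff hπ]
  refine ⟨Reg.aeval hπ v hv P, fun h => ?_⟩
  have h1 := h.sub hπ (van_aeval_sub hπ v hst hs ht P)
  rw [sub_sub_cancel] at h1
  exact not_van_poly hπ (v t) ht hc _ (lin_ne_zero hst P hP) h1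

/-- Order of an arbitrary element of the field of rational functions in `v 0, v 1`. -/
lemma ord_frac (hπ : Prime π) (φ : K2 →ₐ[ℂ] K2) {s t : Fin 2} (hst : t ≠ s) {e : ℤ}
    (hs : Van π (φ (io (X s)))) (hse : HasOrd π (φ (io (X s))) e) (ht : Reg π (φ (io (X t))))
    (hc : ∀ c : ℂ, ¬ Van π (φ (io (X t)) - algebraMap ℂ K2 c))
    (k : K2) (n : ℤ) (hk : HasOrd (X s) k n) : HasOrd π (φ k) (n * e) := by
  obtain ⟨a, b, ha, hb, h⟩ := hk
  set v : Fin 2 → K2 := fun i => φ (io (X i)) with hv
  have hφ : ∀ P : A2, φ (io P) = aeval v P := by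
    intro P
    have : (φ.comp io : A2 →ₐ[ℂ] K2) = aeval v := by
      apply MvPolynomial.algHom_ext; intro i; simp [hv]
    exact DFunLike.congr_fun this P
  have h1 := congrArg φ h
  rw [map_mul, map_mul, map_zpow₀, hφ b, hφ a] at h1
  have oa := ord_aeval_zero hπ v hst hs ht hc a ha
  have ob := ord_aeval_zero hπ v hst hs ht hc b hb
  have hpow : ∀ m : ℤ, HasOrd π (φ (io (X s)) ^ m) (m * e) := by
    have hnat : ∀ m : ℕ, HasOrd π (φ (io (X s)) ^ m) (m * e) := by
      intro m
      induction m with
      | zero =>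
        rw [pow_zero, Nat.cast_zero, zero_mul, hasOrd_zero_iff hπ]
        exact ⟨Reg.one hπ, not_van_one hπ⟩
      | succ m ih =>
        rw [pow_succ]
        have := ih.mul hπ hse
        convert this using 1
        push_cast; ring
    intro m
    rcases Int.eq_nat_or_neg m with ⟨k, rfl | rfl⟩
    · rw [zpow_natCast]; exact hnat k
    · rw [zpow_neg, zpow_natCast]
      have := (hnat k).inv hπ
      convert this using 1
      ring
  have hb0 : aeval v b ≠ 0 := ob.ne_zero hπ
  have e1 : φ k = φ (io (X s)) ^ n * aeval v a * (aeval v b)⁻¹ := by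
    field_simp
    exact h1
  rw [e1]
  have := ((hpow n).mul hπ oa).mul hπ (ob.inv hπ)
  convert this using 1
  ring

end Pool.Agent.KBir
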