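import Pool.Agent.KBir.Glob
import Pool.Agent.KC2.Main

/-! A birational map which is the identity on the cross and intertwines two Keller maps. -/

set_option autoImplicit false

noncomputable section

namespace Pool.Agent.KBir

open MvPolynomial Pool.Agent.KC2

lemma ord_poly_roots {π : A2} (hπ : Prime π) (g : K2) (hg : HasOrd π g 0) (p : Polynomial ℂ)
    (hp : p ≠ 0) (hr : ∀ a ∈ p.roots, a = 0) : HasOrd π (Polynomial.aeval g p) 0 := by
  have hsplit : p = Polynomial.C p.leadingCoeff * (p.roots.map fun a => Polynomial.X - Polynomial.C a).prod :=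
    (IsAlgClosed.splits p).eq_prod_roots
  rw [hsplit, map_mul, Polynomial.aeval_C]
  have hlc : p.leadingCoeff ≠ 0 := by rwa [Ne, Polynomial.leadingCoeff_eq_zero]
  have hprod : ∀ m : Multiset ℂ, (∀ a ∈ m, a = 0) →
      HasOrd π (Polynomial.aeval g ((m.map fun a => Polynomial.X - Polynomial.C a).prod)) 0 := by
    intro m
    induction m using Multiset.induction_on with
    | empty =>
      intro _
      simp only [Multiset.map_zero, Multiset.prod_zero, map_one]
      rw [hasOrd_zero_iff hπ]; exact ⟨Reg.one hπ, not_van_one hπ⟩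
    | cons a m ih =>
      intro hm
      rw [Multiset.map_cons, Multiset.prod_cons, map_mul]
      have ha : a = 0 := hm a (Multiset.mem_cons_self _ _)
      have h1 : HasOrd π (Polynomial.aeval g (Polynomial.X - Polynomial.C a)) 0 := by
        rw [ha, map_zero, sub_zero, Polynomial.aeval_X]; exact hg
      have := h1.mul hπ (ih fun b hb => hm b (Multiset.mem_cons_of_mem hb))
      rwa [add_zero] at this
  have h0 : HasOrd π (algebraMap ℂ K2 p.leadingCoeff) 0 := by
    rw [hasOrd_zero_iff hπ]; exact ⟨Reg.const hπ _, not_van_const hπ hlc⟩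
  have := h0.mul hπ (hprod p.roots hr)
  rwa [add_zero] at this

lemma exists_lead {π : A2} (hπ : Prime π) (e : Fin 2 → ℤ) (u v : Fin 2 → K2)
    (hv : ∀ i, v i = io π ^ e i * u i) (hu : ∀ i, HasOrd π (u i) 0) (P : A2)
    (hreg : Reg π (aeval v P)) (s : Fin 2) (hs : coeff (Finsupp.single s 1) P ≠ 0) (he : e s < 0) :
    ∃ μ : ℤ, μ < 0 ∧ (∀ m, coeff m P ≠ 0 → μ ≤ e 0 * m 0 + e 1 * m 1) ∧
      (∃ m : Fin 2 →₀ ℕ, coeff m P ≠ 0 ∧ e 0 * m 0 + e 1 * m 1 = μ) ∧
      Van π (aeval u (wpart e μ P)) := by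
  obtain ⟨m, hm, hmin⟩ := P.support.exists_min_image (fun m => e 0 * (m 0 : ℤ) + e 1 * m 1)
    ⟨_, mem_support_iff.2 hs⟩
  have hmin' : ∀ m', coeff m' P ≠ 0 → e 0 * (m 0 : ℤ) + e 1 * m 1 ≤ e 0 * m' 0 + e 1 * m' 1 :=
    fun m' hm' => hmin m' (mem_support_iff.2 hm')
  have hneg : e 0 * (m 0 : ℤ) + e 1 * m 1 < 0 := by
    have h1 := hmin' _ hs
    have h2 : e 0 * ((Finsupp.single s 1 : Fin 2 →₀ ℕ) 0 : ℤ) + e 1 * ((Finsupp.single s 1 : Fin 2 →₀ ℕ) 1 : ℤ) = e s := by
      fin_cases s <;> simp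
    omega
  exact ⟨_, hneg, hmin', ⟨m, mem_support_iff.1 hm, rfl⟩,
    lead_van hπ e u v hv (fun i => ((hasOrd_zero_iff hπ).1 (hu i)).1) P _ hneg hmin' hreg⟩

/-- no pole with opposite orders -/
theorem no_pole_diag {π : A2} (hπ : Prime π) (e : Fin 2 → ℤ) (u v : Fin 2 → K2)
    (hv : ∀ i, v i = io π ^ e i * u i) (hu : ∀ i, HasOrd π (u i) 0) (P Q : A2) (κ : ℂ) (hκ : κ ≠ 0)
    (hPQ : br P Q = C κ) (hreg : Reg π (aeval v P))
    (hs : coeff (Finsupp.single 0 1) P ≠ 0) (he : e 0 < 0) (hee : e 0 + e 1 = 0) : False := by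
  classical
  obtain ⟨μ, hμ, hmin, ⟨m1, hm1, hm1μ⟩, hvan⟩ := exists_lead hπ e u v hv hu P hreg 0 hs he
  have he1 : e 1 = - e 0 := by omega
  -- the maximal difference of the exponents
  set α : ℤ := (m1 0 : ℤ) - m1 1 with hα
  have hμα : μ = e 0 * α := by rw [← hm1μ, he1, hα]; ring
  have hαpos : 0 < α := by
    by_contra h
    push Not at h
    have : 0 ≤ e 0 * α := mul_nonneg_of_nonpos_of_nonpos he.le h
    omega
  have hle : ∀ m, coeff m P ≠ 0 → (m 0 : ℤ) - m 1 ≤ α := by
    intro m hm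
    have h1 := hmin m hm
    rw [hμα, he1] at h1
    have h2 : e 0 * α ≤ e 0 * ((m 0 : ℤ) - m 1) := by linarith
    by_contra h3
    push Not at h3
    have := mul_lt_mul_of_neg_left h3 he
    omega
  have hρ : rho α P ≠ 0 := by
    intro h
    have := rho_coeff α P m1 rfl
    rw [h] at this
    simp at this
    exact hm1 this.symm
  obtain ⟨A, hA⟩ := Int.eq_ofNat_of_zero_le hαpos.le
  have huu : u 0 * u 1 = v 0 * v 1 := by
    rw [hv 0, hv 1, he1]
    have hp := io_ne hπ.ne_zero
    rw [zpow_neg]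
    have : io π ^ e 0 ≠ 0 := zpow_ne_zero _ hp
    field_simp
  have hform : aeval u (wpart e μ P) = u 0 ^ A * Polynomial.aeval (u 0 * u 1) (rho α P) := by
    rw [wpart, rho, map_sum, map_sum, Finset.mul_sum]
    refine Finset.sum_congr rfl fun m _ => ?_
    by_cases hm : (m 0 : ℤ) - m 1 = α
    · rw [if_pos hm, if_pos (by rw [hμα, ← hm, he1]; ring), aeval_monomial,
        Finsupp.prod_fintype _ _ (fun i => pow_zero _), Fin.prod_univ_two, map_mul,
        Polynomial.aeval_C, map_pow, Polynomial.aeval_X]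
      have : m 0 = A + m 1 := by omega
      rw [this, pow_add, mul_pow]; ring
    · rw [if_neg hm, if_neg, map_zero, map_zero, mul_zero]
      intro h
      apply hm
      rw [hμα, he1] at h
      have h2 : e 0 * ((m 0 : ℤ) - m 1) = e 0 * α := by linarith
      exact mul_left_cancel₀ (by omega) h2
  rw [hform] at hvan
  have hw : HasOrd π (u 0 * u 1) 0 := by
    have := (hu 0).mul hπ (hu 1)
    rwa [add_zero] at this
  have hroots : ∀ a ∈ (rho α P).roots, a = 0 := by
    intro a ha
    rw [Polynomial.mem_roots hρ] at ha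
    exact residue P Q κ hκ hPQ α hle hρ a ha
  have h1 := ord_poly_roots hπ _ hw _ hρ hroots
  have h2 : HasOrd π (u 0 ^ A) 0 := by
    have : ∀ n : ℕ, HasOrd π (u 0 ^ n) 0 := by
      intro n
      induction n with
      | zero =>
        rw [pow_zero, hasOrd_zero_iff hπ]; exact ⟨Reg.one hπ, not_van_one hπ⟩
      | succ n ih =>
        rw [pow_succ]
        have := ih.mul hπ (hu 0)
        rwa [add_zero] at this
    exact this A
  have h3 := h2.mul hπ h1
  rw [add_zero] at h3
  exact ((hasOrd_zero_iff hπ).1 h3).2 hvan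

lemma const_coeff (P : A2) (i : Fin 2) :
    constantCoeff (pderiv i P) = coeff (Finsupp.single i 1) P := by
  rw [constantCoeff_eq, coeff_pderiv]
  simp

lemma exists_lin (G : Fin 2 → A2) (hG : br (G 0) (G 1) = 1) (s : Fin 2) :
    ∃ k, coeff (Finsupp.single s 1) (G k) ≠ 0 := by
  by_contra hcon
  push Not at hcon
  have h := congrArg constantCoeff hG
  rw [br, map_sub, map_mul, map_mul, const_coeff, const_coeff, const_coeff, const_coeff,
    map_one] at h
  fin_cases s
  · have h0 := hcon 0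
    have h1 := hcon 1
    simp only [Fin.zero_eta, Fin.isValue] at h0 h1
    rw [h0, h1] at h
    simp at h
  · have h0 := hcon 0
    have h1 := hcon 1
    simp only [Fin.mk_one, Fin.isValue] at h0 h1
    rw [h0, h1] at h
    simp at h

lemma br_k (G : Fin 2 → A2) (hG : br (G 0) (G 1) = 1) (k : Fin 2) :
    ∃ κ : ℂ, κ ≠ 0 ∧ br (G k) (G (k + 1)) = C κ := by
  fin_cases k
  · exact ⟨1, one_ne_zero, by rw [map_one]; exact hG⟩
  · refine ⟨-1, by norm_num, ?_⟩
    show br (G 1) (G 0) = C (-1)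
    rw [map_neg, map_one, ← hG]; simp only [br]; ring

/-- The orders of the two coordinate functions along every curve. -/
theorem orders {φ : K2 →ₐ[ℂ] K2} (h : Setup φ) (F G : Fin 2 → A2) (hG : br (G 0) (G 1) = 1)
    (hφ : ∀ i, φ (io (G i)) = io (F i)) {π : A2} (hπ : Prime π)
    (hnv : ∀ s t : Fin 2, t ≠ s → Van π (φ (io (X s))) → Reg π (φ (io (X t))) → False) (e : Fin 2 → ℤ) (he : ∀ i, HasOrd π (φ (io (X i))) (e i)) :
    e 0 + e 1 ≤ 0 ∧ (e 0 + e 1 = 0 → e 0 = 0) := by
  set v : Fin 2 → K2 := fun i => φ (io (X i)) with hv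
  choose u hu1 hu2 using fun i => (he i).factor hπ
  have hvu : ∀ i, v i = io π ^ e i * u i := hu1
  have hφv : ∀ P : A2, φ (io P) = aeval v P := by
    intro P
    have : (φ.comp io : A2 →ₐ[ℂ] K2) = aeval v := by
      apply MvPolynomial.algHom_ext; intro i; simp [hv]
    exact DFunLike.congr_fun this P
  have hregG : ∀ k, Reg π (aeval v (G k)) := by
    intro k; rw [← hφv, hφ]; exact Reg.of_poly hπ _
  have hlead : ∀ s, e s < 0 → ∃ (g : A2) (ν : ℤ), g ≠ 0 ∧ Homog e ν g ∧ Van π (aeval u g) := by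
    intro s hs
    obtain ⟨k, hk⟩ := exists_lin G hG s
    obtain ⟨μ, -, -, ⟨m, hm, hmμ⟩, hvan⟩ := exists_lead hπ e u v hvu hu2 (G k) (hregG k) s hk hs
    refine ⟨wpart e μ (G k), μ, ?_, ?_, hvan⟩
    · intro h'
      have := coeff_wpart e μ (G k) m
      rw [h', if_pos hmμ, coeff_zero] at this
      exact hm this.symm
    · intro m' hm'
      rw [coeff_wpart] at hm'
      by_contra hne
      rw [if_neg hne] at hm'
      exact hm' rfl
  have hbr : brK (v 0) (v 1) = 1 := h.hbr
  -- the sum is nonpositive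
  have hno : ∀ s t : Fin 2, t ≠ s → 0 < e s → e t < 0 := by
    intro s t hst hs
    by_contra hcon
    push Not at hcon
    exact hnv s t hst ((he s).van hπ hs) ((he t).reg hπ hcon)
  have hsum : e 0 + e 1 ≤ 0 := by
    by_cases hn0 : e 0 < 0
    · exact ord_sum_nonpos hπ e u v hvu hu2 hbr (hlead 0 hn0)
    · by_cases hn1 : e 1 < 0
      · exact ord_sum_nonpos hπ e u v hvu hu2 hbr (hlead 1 hn1)
      · have a0 : ¬ 0 < e 0 := fun hp => hn1 (hno 0 1 (by decide) hp)
        have a1 : ¬ 0 < e 1 := fun hp => hn0 (hno 1 0 (by decide) hp)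
        omega
  refine ⟨hsum, fun heq => ?_⟩
  by_contra hne
  rcases lt_or_gt_of_ne hne with hlt | hgt
  · obtain ⟨k, hk⟩ := exists_lin G hG 0
    obtain ⟨κ, hκ, hbk⟩ := br_k G hG k
    exact no_pole_diag hπ e u v hvu hu2 (G k) _ κ hκ hbk (hregG k) hk hlt heq
  · obtain ⟨k, hk⟩ := exists_lin G hG 1
    obtain ⟨κ, hκ, hbk⟩ := br_k G hG k
    have hae : ∀ (w : Fin 2 → K2) (P : A2), aeval ![w 1, w 0] (sw P) = aeval w P := by
      intro w P
      have : ((aeval ![w 1, w 0] : A2 →ₐ[ℂ] K2).comp sw) = aeval w := by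
        apply MvPolynomial.algHom_ext
        intro i
        fin_cases i
        · show aeval ![w 1, w 0] (sw (X 0)) = aeval w (X 0)
          rw [sw_X0]; simp
        · show aeval ![w 1, w 0] (sw (X 1)) = aeval w (X 1)
          rw [sw_X1]; simp
      exact DFunLike.congr_fun this P
    refine no_pole_diag hπ ![e 1, e 0] ![u 1, u 0] ![v 1, v 0] ?_ ?_ (sw (G k)) (sw (G (k + 1)))
      (-κ) (neg_ne_zero.2 hκ) ?_ ?_ ?_ ?_ ?_
    · intro i
      fin_cases i
      · exact hvu 1
      · exact hvu 0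
    · intro i
      fin_cases i
      · exact hu2 1
      · exact hu2 0
    · rw [br_sw, hbk, map_neg]
      congr 1
      show sw (C κ) = C κ
      rw [← algebraMap_eq, AlgHom.commutes]
    · rw [hae]; exact hregG k
    · rw [sw_coeff, swm_single]; exact hk
    · show e 1 < 0
      omega
    · show e 1 + e 0 = 0
      omega

/-- The main theorem on rational maps. -/
theorem rational {φ : K2 →ₐ[ℂ] K2} (h : Setup φ) (F G : Fin 2 → A2) (hG : br (G 0) (G 1) = 1)
    (hφ : ∀ i, φ (io (G i)) = io (F i))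
    (hnv : ∀ π : A2, Prime π → ¬ (X 0 : A2) ∣ π → ¬ (X 1 : A2) ∣ π →
      ∀ s t : Fin 2, t ≠ s → Van π (φ (io (X s))) → Reg π (φ (io (X t))) → False) (i : Fin 2) :
    φ (io (X i)) = io (X i) := by
  set v : Fin 2 → K2 := fun i => φ (io (X i)) with hv
  have hvne : ∀ i, v i ≠ 0 := by
    intro i h0
    exact io_ne (X_ne_zero i) ((φ : K2 →+* K2).injective (by rw [map_zero]; exact h0))
  have hXne : ∀ i : Fin 2, io (X i) ≠ 0 := fun i => io_ne (X_ne_zero i)
  -- orders along the axes
  have hax : ∀ s t : Fin 2, t ≠ s → HasOrd (X s) (v t) 0 := by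
    intro s t hst
    have hX := prime_X s
    obtain ⟨κ, hκ, hb⟩ := h.brst (Ne.symm hst)
    rw [hasOrd_zero_iff hX]
    constructor
    · have := ((h.hcr t s).reg hX).add hX (Reg.of_poly hX (X t))
      rwa [sub_add_cancel] at this
    · have := not_van_sub_const hX _ _ κ hκ ((h.ord_axis s).van hX one_pos) hb 0
      rwa [map_zero, sub_zero] at this
  have hord : ∀ π, Prime π → ∃ e : Fin 2 → ℤ, ∀ i, HasOrd π (v i) (e i) := by
    intro π hπ
    choose e he using fun i => exists_ord hπ (hvne i)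
    exact ⟨e, he⟩
  have hXord : ∀ π, Prime π → ∀ s : Fin 2, ¬ (X s : A2) ∣ π → HasOrd π (io (X s)) 0 := by
    intro π hπ s hs
    apply hasOrd_zero_poly hπ
    intro hd
    apply hs
    exact ((hπ.irreducible.associated_of_dvd (prime_X s).irreducible hd).symm).dvd
  -- the quotient `xy / (v 0 v 1)` is a polynomial
  obtain ⟨m, hm⟩ := poly_of_reg (io (X 0) * io (X 1) * (v 0 * v 1)⁻¹) (by
    rintro π ⟨hπ, hc⟩
    rcases hc with rfl | rfl | ⟨h0, h1⟩
    · have a := ((hasOrd_self hπ).mul hπ (hasOrd_zero_poly hπ (X_not_dvd (by decide : (0 : Fin 2) ≠ 1)))).mul hπ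
        (((h.ord_axis 0).mul hπ (hax 0 1 (by decide))).inv hπ)
      exact a.reg hπ (by norm_num)
    · have a := ((hasOrd_zero_poly hπ (X_not_dvd (by decide : (1 : Fin 2) ≠ 0))).mul hπ (hasOrd_self hπ)).mul hπ
        (((hax 1 0 (by decide)).mul hπ (h.ord_axis 1)).inv hπ)
      exact a.reg hπ (by norm_num)
    · obtain ⟨e, he⟩ := hord π hπ
      have := (orders h F G hG hφ hπ (hnv π hπ h0 h1) e he).1
      have a := ((hXord π hπ 0 h0).mul hπ (hXord π hπ 1 h1)).mul hπ
        (((he 0).mul hπ (he 1)).inv hπ)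
      exact a.reg hπ (by omega))
  have hvv : v 0 * v 1 ≠ 0 := mul_ne_zero (hvne 0) (hvne 1)
  obtain ⟨c, hc, rfl⟩ := const_of_bracket (v 0) (v 1) h.hbr m (by
    rw [← hm, mul_assoc, inv_mul_cancel₀ hvv, mul_one])
  have hcK : algebraMap ℂ K2 c ≠ 0 := by
    rw [Ne, map_eq_zero]; exact hc
  have hioC : ∀ a : ℂ, io (C a) = algebraMap ℂ K2 a := by
    intro a; rw [← algebraMap_eq, AlgHom.commutes]
  rw [hioC] at hm
  -- the quotients `v i / X i` are constant
  have hquot : ∀ s : Fin 2, ∃ a : ℂ, v s = algebraMap ℂ K2 a * io (X s) := by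
    intro s
    obtain ⟨a, ha, hae⟩ := const_of_ord (v s * (io (X s))⁻¹) (mul_ne_zero (hvne s) (inv_ne_zero (hXne s))) (by
      rintro π ⟨hπ, hcase⟩
      have haxis : ∀ t : Fin 2, π = X t → HasOrd π (v s * (io (X s))⁻¹) 0 := by
        rintro t rfl
        by_cases hst : s = t
        · subst hst
          have := (h.ord_axis s).mul hπ ((hasOrd_self hπ).inv hπ)
          rwa [add_neg_cancel] at this
        · have := (hax t s hst).mul hπ ((hasOrd_zero_poly hπ (X_not_dvd (Ne.symm hst))).inv hπ)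
          rwa [neg_zero, add_zero] at this
      rcases hcase with h0 | h1 | ⟨h0, h1⟩
      · exact haxis 0 h0
      · exact haxis 1 h1
      · obtain ⟨e, he⟩ := hord π hπ
        obtain ⟨-, o2⟩ := orders h F G hG hφ hπ (hnv π hπ h0 h1) e he
        have a := ((hXord π hπ 0 h0).mul hπ (hXord π hπ 1 h1)).mul hπ
          (((he 0).mul hπ (he 1)).inv hπ)
        rw [hm] at a
        have b : HasOrd π (algebraMap ℂ K2 c) 0 := by
          rw [hasOrd_zero_iff hπ]; exact ⟨Reg.const hπ _, not_van_const hπ hc⟩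
        have hsum := a.unique hπ b
        have e0 : e 0 = 0 := o2 (by omega)
        have e1 : e 1 = 0 := by omega
        have hes : HasOrd π (v s) 0 := by
          have := he s
          fin_cases s
          · have h2 : HasOrd π (v 0) (e 0) := this
            rw [e0] at h2; exact h2
          · have h2 : HasOrd π (v 1) (e 1) := this
            rw [e1] at h2; exact h2
        have hXs : HasOrd π (io (X s)) 0 := by
          fin_cases s
          · exact hXord π hπ 0 h0
          · exact hXord π hπ 1 h1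
        have := hes.mul hπ (hXs.inv hπ)
        rwa [neg_zero, add_zero] at this)
    refine ⟨a, ?_⟩
    rw [← hae, mul_assoc, inv_mul_cancel₀ (hXne s), mul_one]
  obtain ⟨a, ha⟩ := hquot i
  -- the constant is one
  have h1 := h.hcr i (i + 1)
  have hX := prime_X (i + 1)
  have e1 : φ (io (X i)) - io (X i) = io (C (a - 1) * X i) := by
    show v i - io (X i) = _
    rw [ha, map_mul, hioC, map_sub, map_one]; ring
  rw [e1, van_poly_iff hX] at h1
  have h2 : a = 1 := by
    by_contra hne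
    rcases hX.dvd_or_dvd h1 with h3 | h3
    · apply hX.not_unit
      refine isUnit_of_dvd_unit h3 ?_
      exact (isUnit_iff_ne_zero.2 (sub_ne_zero.2 hne)).map C
    · revert h3
      apply X_not_dvd
      fin_cases i <;> decide
  show v i = _
  rw [ha, h2, map_one, one_mul]

end Pool.Agent.KBir
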