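import Pool.Agent.KBir.Resid

/-! From local to global. -/

set_option autoImplicit false

noncomputable section

namespace Pool.Agent.KBir

open MvPolynomial Pool.Agent.KC2

/-- the primes which have to be considered -/
def Good (π : A2) : Prop := Prime π ∧ (π = X 0 ∨ π = X 1 ∨ (¬ (X 0 : A2) ∣ π ∧ ¬ (X 1 : A2) ∣ π))

lemma exists_good_dvd (b : A2) (hb : ¬ IsUnit b) (hb0 : b ≠ 0) : ∃ π, Good π ∧ π ∣ b := by
  by_cases h0 : (X 0 : A2) ∣ b
  · exact ⟨X 0, ⟨prime_X 0, Or.inl rfl⟩, h0⟩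
  by_cases h1 : (X 1 : A2) ∣ b
  · exact ⟨X 1, ⟨prime_X 1, Or.inr (Or.inl rfl)⟩, h1⟩
  obtain ⟨π, hπ, hd⟩ := WfDvdMonoid.exists_irreducible_factor hb hb0
  exact ⟨π, ⟨hπ.prime, Or.inr (Or.inr ⟨fun h => h0 (h.trans hd), fun h => h1 (h.trans hd)⟩)⟩, hd⟩

lemma poly_of_reg (h : K2) (hr : ∀ π, Good π → Reg π h) : ∃ m : A2, h = io m := by
  obtain ⟨a, b, hab, rfl⟩ := IsFractionRing.exists_reduced_fraction (A := A2) h
  have hb0 : (b : A2) ≠ 0 := nonZeroDivisors.ne_zero b.2
  have e : IsLocalization.mk' K2 a b * io (b : A2) = io a := IsLocalization.mk'_spec _ _ _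
  by_cases hu : IsUnit (b : A2)
  · obtain ⟨c, hc⟩ := hu.exists_right_inv
    refine ⟨a * c, ?_⟩
    have h1 : io (b : A2) * io c = 1 := by rw [← map_mul, hc, map_one]
    calc IsLocalization.mk' K2 a b = IsLocalization.mk' K2 a b * io (b : A2) * io c := by
          rw [mul_assoc, h1, mul_one]
      _ = io (a * c) := by rw [e, map_mul]
  · exfalso
    obtain ⟨π, hπ, hd⟩ := exists_good_dvd _ hu hb0
    obtain ⟨c, d, hd', e2⟩ := hr π hπ
    have e3 : a * d = b * c := by
      apply io_inj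
      rw [map_mul, map_mul, ← e, ← e2]; ring
    have h1 : π ∣ a := (hπ.1.dvd_or_dvd (e3 ▸ hd.mul_right c)).resolve_right hd'
    exact hπ.1.not_unit (hab h1 hd)

lemma isUnit_const (m : A2) (hm : IsUnit m) : ∃ c : ℂ, c ≠ 0 ∧ m = C c := by
  rw [MvPolynomial.isUnit_iff_eq_C_of_isReduced] at hm
  obtain ⟨c, hc, rfl⟩ := hm
  exact ⟨c, hc.ne_zero, rfl⟩

lemma const_of_ord (h : K2) (h0 : h ≠ 0) (hr : ∀ π, Good π → HasOrd π h 0) :
    ∃ c : ℂ, c ≠ 0 ∧ h = algebraMap ℂ K2 c := by
  obtain ⟨m, hm⟩ := poly_of_reg h fun π hπ => ((hasOrd_zero_iff hπ.1).1 (hr π hπ)).1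
  obtain ⟨m', hm'⟩ := poly_of_reg h⁻¹ fun π hπ => by
    have := (hr π hπ).inv hπ.1
    rw [neg_zero] at this
    exact ((hasOrd_zero_iff hπ.1).1 this).1
  have hu : m * m' = 1 := by
    apply io_inj
    rw [map_mul, ← hm, ← hm', mul_inv_cancel₀ h0, map_one]
  obtain ⟨c, hc, rfl⟩ := isUnit_const m (IsUnit.of_mul_eq_one _ hu)
  refine ⟨c, hc, ?_⟩
  rw [hm, ← algebraMap_eq, AlgHom.commutes]

/-! ### degrees -/

lemma totalDegree_X_mul_pderiv (i : Fin 2) (f : A2) :
    (X i * pderiv i f).totalDegree ≤ f.totalDegree := by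
  by_cases h : pderiv i f = 0
  · rw [h, mul_zero, totalDegree_zero]; exact Nat.zero_le _
  · have h1 := totalDegree_pderiv_lt i f h
    have h2 := totalDegree_mul (X i : A2) (pderiv i f)
    rw [totalDegree_X] at h2
    omega

lemma deg_log (i : Fin 2) (p q : A2) :
    (X i * (pderiv i p * q - p * pderiv i q)).totalDegree ≤ p.totalDegree + q.totalDegree := by
  have e : X i * (pderiv i p * q - p * pderiv i q) = (X i * pderiv i p) * q - p * (X i * pderiv i q) := by
    ring
  rw [e]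
  refine (totalDegree_sub _ _).trans (max_le ?_ ?_)
  · exact (totalDegree_mul _ _).trans (Nat.add_le_add_right (totalDegree_X_mul_pderiv i p) _)
  · exact (totalDegree_mul _ _).trans (Nat.add_le_add_left (totalDegree_X_mul_pderiv i q) _)

/-- a polynomial `m` with `m f g = xy` for functions `f`, `g` of bracket one is constant -/
theorem const_of_bracket (f g : K2) (hbr : brK f g = 1) (m : A2)
    (hm : io m * (f * g) = io (X 0) * io (X 1)) : ∃ c : ℂ, c ≠ 0 ∧ m = C c := by
  have hf : f ≠ 0 := by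
    rintro rfl
    rw [zero_mul, mul_zero, ← map_mul] at hm
    exact io_ne (mul_ne_zero (X_ne_zero 0) (X_ne_zero 1)) hm.symm
  have hg : g ≠ 0 := by
    rintro rfl
    rw [mul_zero, mul_zero, ← map_mul] at hm
    exact io_ne (mul_ne_zero (X_ne_zero 0) (X_ne_zero 1)) hm.symm
  have hm0 : m ≠ 0 := by
    rintro rfl
    rw [map_zero, zero_mul, ← map_mul] at hm
    exact io_ne (mul_ne_zero (X_ne_zero 0) (X_ne_zero 1)) hm.symm
  obtain ⟨p, q, hq, e1⟩ := exists_frac f
  obtain ⟨r, s, hs, e2⟩ := exists_frac g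
  have hp : p ≠ 0 := by
    rintro rfl
    rw [map_zero] at e1
    exact mul_ne_zero hf (io_ne hq) e1
  have hr : r ≠ 0 := by
    rintro rfl
    rw [map_zero] at e2
    exact mul_ne_zero hg (io_ne hs) e2
  have hd : ∀ (i : Fin 2) (h : K2) (a b : A2), h * io b = io a →
      dK i h * (io b * io b) = io (pderiv i a * b - a * pderiv i b) := by
    intro i h a b e
    have h1 := congrArg (dK i) e
    rw [Derivation.leibniz, dK_io, dK_io, smul_eq_mul, smul_eq_mul] at h1
    rw [map_sub, map_mul, map_mul, ← e, ← h1]; ring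
  have d00 := hd 0 f p q e1
  have d10 := hd 1 f p q e1
  have d01 := hd 0 g r s e2
  have d11 := hd 1 g r s e2
  set T : A2 := (X 0 * (pderiv 0 p * q - p * pderiv 0 q)) * (X 1 * (pderiv 1 r * s - r * pderiv 1 s))
    - (X 1 * (pderiv 1 p * q - p * pderiv 1 q)) * (X 0 * (pderiv 0 r * s - r * pderiv 0 s)) with hT
  have key : m * (p * q * (r * s)) = T := by
    apply io_inj
    rw [hT, map_sub]
    simp only [map_mul]
    have a1 : io (X 0) * io (pderiv 0 p * q - p * pderiv 0 q) * (io (X 1) * io (pderiv 1 r * s - r * pderiv 1 s))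
      - io (X 1) * io (pderiv 1 p * q - p * pderiv 1 q) * (io (X 0) * io (pderiv 0 r * s - r * pderiv 0 s))
      = io (X 0) * io (X 1) * (brK f g) * (io q * io q * (io s * io s)) := by
      rw [← d00, ← d10, ← d01, ← d11]
      simp only [brK]; ring
    rw [a1, hbr, ← hm, ← e1, ← e2]
    ring
  have hdT : T.totalDegree ≤ (p.totalDegree + q.totalDegree) + (r.totalDegree + s.totalDegree) := by
    rw [hT]
    refine (totalDegree_sub _ _).trans (max_le ?_ ?_)
    · exact (totalDegree_mul _ _).trans (add_le_add (deg_log 0 p q) (deg_log 1 r s))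
    · exact (totalDegree_mul _ _).trans (add_le_add (deg_log 1 p q) (deg_log 0 r s))
  have hdL : (m * (p * q * (r * s))).totalDegree = m.totalDegree +
      ((p.totalDegree + q.totalDegree) + (r.totalDegree + s.totalDegree)) := by
    rw [totalDegree_mul_of_isDomain hm0 (mul_ne_zero (mul_ne_zero hp hq) (mul_ne_zero hr hs)),
      totalDegree_mul_of_isDomain (mul_ne_zero hp hq) (mul_ne_zero hr hs),
      totalDegree_mul_of_isDomain hp hq, totalDegree_mul_of_isDomain hr hs]
  rw [key] at hdL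
  have h0 : m.totalDegree = 0 := by omega
  rw [totalDegree_eq_zero_iff_eq_C] at h0
  refine ⟨coeff 0 m, ?_, h0⟩
  intro hc
  rw [hc, map_zero] at h0
  exact hm0 h0

end Pool.Agent.KBir
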