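import Pool.Agent.KBir.Claim

/-! Leading forms along a pole. -/

set_option autoImplicit false

noncomputable section

namespace Pool.Agent.KBir

open MvPolynomial Pool.Agent.KC2

variable {π : A2}

/-- the part of weight `μ` -/
def wpart (e : Fin 2 → ℤ) (μ : ℤ) (P : A2) : A2 :=
  ∑ m ∈ P.support, if e 0 * m 0 + e 1 * m 1 = μ then monomial m (coeff m P) else 0

lemma coeff_wpart (e : Fin 2 → ℤ) (μ : ℤ) (P : A2) (m : Fin 2 →₀ ℕ) :
    coeff m (wpart e μ P) = if e 0 * m 0 + e 1 * m 1 = μ then coeff m P else 0 := by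
  classical
  rw [wpart, coeff_sum]
  by_cases hm : m ∈ P.support
  · rw [Finset.sum_eq_single_of_mem m hm]
    · split_ifs <;> simp
    · intro b _ hb
      split_ifs
      · rw [coeff_monomial, if_neg hb]
      · simp
  · rw [notMem_support_iff.1 hm, ite_self]
    refine Finset.sum_eq_zero fun b hb => ?_
    split_ifs
    · rw [coeff_monomial, if_neg]
      rintro rfl; exact hm hb
    · simp

lemma aeval_eq_sumK (v : Fin 2 → K2) (P : A2) :
    aeval v P = ∑ m ∈ P.support, algebraMap ℂ K2 (coeff m P) * (v 0 ^ m 0 * v 1 ^ m 1) := by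
  rw [aeval_def, eval₂_eq']
  refine Finset.sum_congr rfl fun m _ => ?_
  rw [Fin.prod_univ_two]

/-- the leading form vanishes if the polynomial expression has no pole -/
theorem lead_van (hπ : Prime π) (e : Fin 2 → ℤ) (u v : Fin 2 → K2)
    (hv : ∀ i, v i = io π ^ e i * u i) (hu : ∀ i, Reg π (u i)) (P : A2) (μ : ℤ) (hμ : μ < 0)
    (hmin : ∀ m, coeff m P ≠ 0 → μ ≤ e 0 * m 0 + e 1 * m 1)
    (hreg : Reg π (aeval v P)) : Van π (aeval u (wpart e μ P)) := by
  classical
  have hp : io π ≠ 0 := io_ne hπ.ne_zero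
  have hmon : ∀ m : Fin 2 →₀ ℕ, v 0 ^ m 0 * v 1 ^ m 1
      = io π ^ (e 0 * m 0 + e 1 * m 1) * (u 0 ^ m 0 * u 1 ^ m 1) := by
    intro m
    rw [hv 0, hv 1, mul_pow, mul_pow, zpow_add₀ hp, zpow_mul, zpow_mul, zpow_natCast, zpow_natCast]
    ring
  have h1 : Van π (io π ^ (-μ) * aeval v P) :=
    ((hasOrd_pow hπ (-μ)).van hπ (by omega)).mul_reg hπ hreg
  have h2 : aeval u (wpart e μ P) = ∑ m ∈ P.support, if e 0 * m 0 + e 1 * m 1 = μ then
      algebraMap ℂ K2 (coeff m P) * (u 0 ^ m 0 * u 1 ^ m 1) else 0 := by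
    rw [wpart, map_sum]
    refine Finset.sum_congr rfl fun m _ => ?_
    split_ifs
    · rw [aeval_monomial, Finsupp.prod_fintype _ _ (fun i => pow_zero _), Fin.prod_univ_two]
    · rw [map_zero]
  have h3 : io π ^ (-μ) * aeval v P - aeval u (wpart e μ P) = ∑ m ∈ P.support,
      if e 0 * m 0 + e 1 * m 1 = μ then 0 else
        io π ^ (e 0 * m 0 + e 1 * m 1 - μ) * (algebraMap ℂ K2 (coeff m P) * (u 0 ^ m 0 * u 1 ^ m 1)) := by
    rw [h2, aeval_eq_sumK, Finset.mul_sum, ← Finset.sum_sub_distrib]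
    refine Finset.sum_congr rfl fun m _ => ?_
    rw [hmon m]
    split_ifs with h
    · rw [h]
      have : io π ^ (-μ) * io π ^ μ = 1 := by rw [← zpow_add₀ hp, neg_add_cancel, zpow_zero]
      linear_combination (algebraMap ℂ K2 (coeff m P) * (u 0 ^ m 0 * u 1 ^ m 1)) * this
    · generalize e 0 * (m 0 : ℤ) + e 1 * (m 1 : ℤ) = w
      have : io π ^ (w - μ) = io π ^ (-μ) * io π ^ w := by
        rw [← zpow_add₀ hp]; congr 1; ring
      rw [sub_zero, this]; ring
  have h4 : Van π (io π ^ (-μ) * aeval v P - aeval u (wpart e μ P)) := by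
    rw [h3]
    have hs : ∀ (s : Finset (Fin 2 →₀ ℕ)), (∀ m ∈ s, m ∈ P.support) → Van π (∑ m ∈ s,
        if e 0 * m 0 + e 1 * m 1 = μ then 0 else
        io π ^ (e 0 * m 0 + e 1 * m 1 - μ) * (algebraMap ℂ K2 (coeff m P) * (u 0 ^ m 0 * u 1 ^ m 1))) := by
      intro s
      induction s using Finset.induction_on with
      | empty => intro _; simpa using Van.zero hπ
      | insert i s hi ih =>
        intro hs
        rw [Finset.sum_insert hi]
        refine Van.add hπ ?_ (ih fun m hm => hs m (Finset.mem_insert_of_mem hm))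
        split_ifs with h
        · exact Van.zero hπ
        · have hm := hmin i (mem_support_iff.1 (hs i (Finset.mem_insert_self _ _)))
          refine ((hasOrd_pow hπ _).van hπ (by omega)).mul_reg hπ ?_
          exact (Reg.const hπ _).mul hπ (((hu 0).pow hπ _).mul hπ ((hu 1).pow hπ _))
    exact hs _ fun m hm => hm
  have := h1.sub hπ h4
  rwa [sub_sub_cancel] at this

/-- Euler relation -/
lemma euler (e : Fin 2 → ℤ) (ν : ℤ) (g : A2)
    (hg : ∀ m, coeff m g ≠ 0 → e 0 * m 0 + e 1 * m 1 = ν) :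
    C (e 0 : ℂ) * (X 0 * pderiv 0 g) + C (e 1 : ℂ) * (X 1 * pderiv 1 g) = C (ν : ℂ) * g := by
  ext m
  have hE : ∀ i : Fin 2, coeff m (X i * pderiv i g) = (m i : ℂ) * coeff m g := by
    intro i
    by_cases hm : m i = 0
    · rw [hm, Nat.cast_zero, zero_mul]
      classical
      rw [coeff_X_mul', if_neg]
      simp [hm]
    · have hle : Finsupp.single i 1 ≤ m := by
        rw [Finsupp.single_le_iff]; omega
      have hmm : (m - Finsupp.single i 1) + Finsupp.single i 1 = m := tsub_add_cancel_of_le hle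
      classical
      rw [coeff_X_mul', if_pos (by rw [Finsupp.mem_support_iff]; exact hm), coeff_pderiv, hmm]
      have h1 : (m - Finsupp.single i 1 : Fin 2 →₀ ℕ) i = m i - 1 := by simp
      rw [h1]
      have : ((m i - 1 : ℕ) : ℂ) + 1 = m i := by
        rw [← Nat.cast_add_one]; congr 1; omega
      rw [this]; ring
  rw [coeff_add, coeff_C_mul, coeff_C_mul, coeff_C_mul, hE, hE]
  by_cases h : coeff m g = 0
  · rw [h]; ring
  · have := hg m h
    have h2 : ((e 0 * m 0 + e 1 * m 1 : ℤ) : ℂ) = (ν : ℂ) := by rw [this]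
    push_cast at h2
    rw [← h2]; ring

lemma totalDegree_pderiv_lt (i : Fin 2) (g : A2) (h : pderiv i g ≠ 0) :
    (pderiv i g).totalDegree < g.totalDegree := by
  classical
  have hex : ∃ m ∈ (pderiv i g).support, (pderiv i g).totalDegree = m.sum fun _ e => e := by
    have hne : (pderiv i g).support.Nonempty := by
      rw [Finset.nonempty_iff_ne_empty, Ne, support_eq_empty]; exact h
    obtain ⟨m, hm, hs⟩ := Finset.exists_mem_eq_sup _ hne (fun s : Fin 2 →₀ ℕ => s.sum fun _ e => e)
    exact ⟨m, hm, hs⟩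
  obtain ⟨m, hm, hs⟩ := hex
  rw [mem_support_iff, coeff_pderiv] at hm
  have h1 := le_totalDegree (mem_support_iff.2 (left_ne_zero_of_mul hm))
  rw [hs]
  have e : ((m + Finsupp.single i 1).sum fun _ e => e) = (m.sum fun _ e => e) + 1 := by
    rw [Finsupp.sum_add_index' (fun _ => rfl) (fun _ _ _ => rfl), Finsupp.sum_single_index rfl]
  omega

lemma eq_C_of_pderiv (g : A2) (h0 : pderiv 0 g = 0) (h1 : pderiv 1 g = 0) : g = C (coeff 0 g) := by
  classical
  ext m
  rw [coeff_C]
  split_ifs with hm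
  · rw [← hm]
  · by_contra hc
    have key : ∀ i : Fin 2, pderiv i g = 0 → m i = 0 := by
      intro i hi
      by_contra hmi
      have hle : Finsupp.single i 1 ≤ m := by
        rw [Finsupp.single_le_iff]; omega
      have hmm : (m - Finsupp.single i 1) + Finsupp.single i 1 = m := tsub_add_cancel_of_le hle
      have := congrArg (coeff (m - Finsupp.single i 1)) hi
      rw [coeff_pderiv, hmm, coeff_zero] at this
      rcases mul_eq_zero.1 this with h | h
      · exact hc h
      · exact Nat.cast_add_one_ne_zero _ h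
    apply hm
    ext i
    fin_cases i
    · exact (key 0 h0).symm
    · exact (key 1 h1).symm

end Pool.Agent.KBir
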