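import Pool.Agent.KBir.Final

/-! A rational map which is regular at the origin, fixes it and intertwines two Keller maps that
agree on the cross is the identity on the cross. -/

set_option autoImplicit false

noncomputable section

namespace Pool.Agent.KBir

open MvPolynomial Pool.Agent.KC2

/-- regular at the origin -/
def R0 (h : K2) : Prop := ∃ a b : A2, constantCoeff b ≠ 0 ∧ h * io b = io a

/-- vanishing at the origin -/
def M0 (h : K2) : Prop := ∃ a b : A2, constantCoeff a = 0 ∧ constantCoeff b ≠ 0 ∧ h * io b = io a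

lemma M0.r0 {h : K2} (hh : M0 h) : R0 h := by
  obtain ⟨a, b, -, hb, e⟩ := hh
  exact ⟨a, b, hb, e⟩

lemma R0.of_poly (a : A2) : R0 (io a) := ⟨a, 1, by simp, by simp⟩

lemma M0.of_poly {a : A2} (h : constantCoeff a = 0) : M0 (io a) := ⟨a, 1, h, by simp, by simp⟩

lemma R0.add {f g : K2} (hf : R0 f) (hg : R0 g) : R0 (f + g) := by
  obtain ⟨a, b, hb, h1⟩ := hf
  obtain ⟨c, d, hd, h2⟩ := hg
  refine ⟨a * d + c * b, b * d, by rw [map_mul]; exact mul_ne_zero hb hd, ?_⟩
  rw [map_mul, map_add, map_mul, map_mul, ← h1, ← h2]; ring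

lemma R0.mul {f g : K2} (hf : R0 f) (hg : R0 g) : R0 (f * g) := by
  obtain ⟨a, b, hb, h1⟩ := hf
  obtain ⟨c, d, hd, h2⟩ := hg
  refine ⟨a * c, b * d, by rw [map_mul]; exact mul_ne_zero hb hd, ?_⟩
  rw [map_mul, map_mul, ← h1, ← h2]; ring

lemma R0.neg {f : K2} (hf : R0 f) : R0 (-f) := by
  obtain ⟨a, b, hb, h1⟩ := hf
  exact ⟨-a, b, hb, by rw [map_neg, ← h1]; ring⟩

lemma R0.sub {f g : K2} (hf : R0 f) (hg : R0 g) : R0 (f - g) := by
  rw [sub_eq_add_neg]; exact hf.add hg.neg

lemma M0.add {f g : K2} (hf : M0 f) (hg : M0 g) : M0 (f + g) := by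
  obtain ⟨a, b, ha, hb, h1⟩ := hf
  obtain ⟨c, d, hc, hd, h2⟩ := hg
  refine ⟨a * d + c * b, b * d, by simp [ha, hc], by rw [map_mul]; exact mul_ne_zero hb hd, ?_⟩
  rw [map_mul, map_add, map_mul, map_mul, ← h1, ← h2]; ring

lemma M0.neg {f : K2} (hf : M0 f) : M0 (-f) := by
  obtain ⟨a, b, ha, hb, h1⟩ := hf
  exact ⟨-a, b, by simp [ha], hb, by rw [map_neg, ← h1]; ring⟩

lemma M0.sub {f g : K2} (hf : M0 f) (hg : M0 g) : M0 (f - g) := by
  rw [sub_eq_add_neg]; exact hf.add hg.neg

lemma M0.mul {f g : K2} (hf : M0 f) (hg : R0 g) : M0 (f * g) := by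
  obtain ⟨a, b, ha, hb, h1⟩ := hf
  obtain ⟨c, d, hd, h2⟩ := hg
  refine ⟨a * c, b * d, by simp [ha], by rw [map_mul]; exact mul_ne_zero hb hd, ?_⟩
  rw [map_mul, map_mul, ← h1, ← h2]; ring

lemma M0.mul_left {f g : K2} (hf : M0 f) (hg : R0 g) : M0 (g * f) := by
  rw [mul_comm]; exact hf.mul hg

/-- an element congruent to one is invertible -/
lemma R0.inv_of_sub_one {h : K2} (hh : R0 h) (h1 : M0 (h - 1)) : ∃ g, R0 g ∧ h * g = 1 := by
  obtain ⟨a, b, ha, hb, e⟩ := h1
  have e2 : h * io b = io (a + b) := by rw [map_add, ← e]; ring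
  have hab : constantCoeff (a + b) ≠ 0 := by rw [map_add, ha, zero_add]; exact hb
  have hab0 : io (a + b) ≠ 0 := io_ne (by intro h0; rw [h0, map_zero] at hab; exact hab rfl)
  refine ⟨io b / io (a + b), ⟨b, a + b, hab, div_mul_cancel₀ _ hab0⟩, ?_⟩
  field_simp
  exact e2

lemma R0.reg {h : K2} (hh : R0 h) (s : Fin 2) : Reg (X s) h := by
  obtain ⟨a, b, hb, e⟩ := hh
  refine ⟨a, b, ?_, e⟩
  rintro ⟨c, rfl⟩
  apply hb
  simp

/-- divided differences -/
lemma dd_local (v : Fin 2 → K2) (hv : ∀ i, M0 (v i)) (P : A2) : ∃ M : Fin 2 → K2,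
    (∀ j, R0 (M j)) ∧ aeval v P - io P = M 0 * (v 0 - io (X 0)) + M 1 * (v 1 - io (X 1)) ∧
    ∀ j, M0 (M j - io (pderiv j P)) := by
  induction P using MvPolynomial.induction_on with
  | C a =>
    refine ⟨0, fun j => ?_, ?_, fun j => ?_⟩
    · show R0 0
      have := R0.of_poly 0
      rwa [map_zero] at this
    · have : io (C a) = algebraMap ℂ K2 a := by rw [← algebraMap_eq, AlgHom.commutes]
      rw [this, aeval_C]; simp
    · have := M0.of_poly (a := 0) (by simp)
      simpa using this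
  | add p q hp hq =>
    obtain ⟨M, m1, m2, m3⟩ := hp
    obtain ⟨N, n1, n2, n3⟩ := hq
    refine ⟨M + N, fun j => (m1 j).add (n1 j), ?_, fun j => ?_⟩
    · rw [map_add, map_add]
      simp only [Pi.add_apply]
      linear_combination m2 + n2
    · have := (m3 j).add (n3 j)
      rw [map_add, map_add]
      convert this using 1
      simp only [Pi.add_apply]; ring
  | mul_X p i hp =>
    obtain ⟨M, m1, m2, m3⟩ := hp
    have hvr : R0 (v i) := (hv i).r0
    refine ⟨fun j => M j * v i + (if j = i then io p else 0), fun j => ?_, ?_, fun j => ?_⟩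
    · refine ((m1 j).mul hvr).add ?_
      split_ifs
      · exact R0.of_poly p
      · have := R0.of_poly 0
        rwa [map_zero] at this
    · rw [map_mul, map_mul, aeval_X]
      fin_cases i
      · simp
        linear_combination (v 0) * m2
      · simp
        linear_combination (v 1) * m2
    · have e : M j * v i + (if j = i then io p else 0) - io (pderiv j (p * X i))
          = M j * v i - io (pderiv j p) * io (X i) := by
        rw [Derivation.leibniz, smul_eq_mul, smul_eq_mul, map_add, map_mul, map_mul, pderiv_X]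
        by_cases hji : j = i
        · subst hji; simp; ring
        · rw [if_neg hji, Pi.single_apply, if_neg (Ne.symm hji)]; simp; ring
      rw [e]
      exact ((hv i).mul_left (m1 j)).sub ((M0.of_poly (a := X i) (by simp)).mul_left (R0.of_poly _))

theorem setup_of_local (φ : K2 →ₐ[ℂ] K2) (F G : Fin 2 → A2) (hF : br (F 0) (F 1) = 1)
    (hG : br (G 0) (G 1) = 1) (hφ : ∀ i, φ (io (G i)) = io (F i))
    (hFG : ∀ i, F i - G i ∈ Ideal.span {(X 0 * X 1 : A2)})
    (h0 : ∀ i, M0 (φ (io (X i)))) : Setup φ := by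
  set v : Fin 2 → K2 := fun i => φ (io (X i)) with hv
  have hφv : ∀ P : A2, φ (io P) = aeval v P := by
    intro P
    have : (φ.comp io : A2 →ₐ[ℂ] K2) = aeval v := by
      apply MvPolynomial.algHom_ext; intro i; simp [hv]
    exact DFunLike.congr_fun this P
  have hbr : brK (v 0) (v 1) = 1 := by
    have h1 : brK (io (F 0)) (io (F 1)) = 1 := by
      have : brK (io (F 0)) (io (F 1)) = io (br (F 0) (F 1)) := by
        simp only [brK, br, dK_io, map_sub, map_mul]
      rw [this, hF, map_one]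
    rw [← hφ, ← hφ, hφv, hφv, brK_aeval, hG, map_one, one_mul] at h1
    exact h1
  choose M m1 m2 m3 using fun k => dd_local v h0 (G k)
  have hN : ∀ k, ∃ N, F k - G k = X 0 * X 1 * N := by
    intro k
    have := hFG k
    rw [Ideal.mem_span_singleton] at this
    exact this
  choose N hN using hN
  have hm : ∀ k, io (X 0 * X 1) * io (N k) = M k 0 * (v 0 - io (X 0)) + M k 1 * (v 1 - io (X 1)) := by
    intro k
    rw [← m2, ← hφv, hφ, ← map_sub, hN k, ← map_mul]
  set D := M 0 0 * M 1 1 - M 0 1 * M 1 0 with hD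
  have hDr : R0 D := ((m1 0 0).mul (m1 1 1)).sub ((m1 0 1).mul (m1 1 0))
  have hD1 : M0 (D - 1) := by
    have e : D - 1 = (M 0 0 - io (pderiv 0 (G 0))) * M 1 1
        + io (pderiv 0 (G 0)) * (M 1 1 - io (pderiv 1 (G 1)))
        - ((M 0 1 - io (pderiv 1 (G 0))) * M 1 0
        + io (pderiv 1 (G 0)) * (M 1 0 - io (pderiv 0 (G 1)))) := by
      have h1 : io (br (G 0) (G 1)) = 1 := by rw [hG, map_one]
      rw [br, map_sub, map_mul, map_mul] at h1
      rw [hD]
      linear_combination h1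
    rw [e]
    exact (((m3 0 0).mul (m1 1 1)).add ((m3 1 1).mul_left (R0.of_poly _))).sub
      (((m3 0 1).mul (m1 1 0)).add ((m3 1 0).mul_left (R0.of_poly _)))
  obtain ⟨g, hg, hDg⟩ := hDr.inv_of_sub_one hD1
  have hξ : ∀ i, ∃ r, R0 r ∧ v i - io (X i) = io (X 0 * X 1) * r := by
    intro i
    fin_cases i
    · refine ⟨(M 1 1 * io (N 0) - M 0 1 * io (N 1)) * g,
        (((m1 1 1).mul (R0.of_poly _)).sub ((m1 0 1).mul (R0.of_poly _))).mul hg, ?_⟩
      show v 0 - io (X 0) = _
      have h0' := hm 0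
      have h1' := hm 1
      have : (v 0 - io (X 0)) * D = io (X 0 * X 1) * (M 1 1 * io (N 0) - M 0 1 * io (N 1)) := by
        rw [hD]
        linear_combination (-M 1 1) * h0' + M 0 1 * h1'
      calc v 0 - io (X 0) = (v 0 - io (X 0)) * D * g := by rw [mul_assoc, hDg, mul_one]
        _ = _ := by rw [this]; ring
    · refine ⟨(M 0 0 * io (N 1) - M 1 0 * io (N 0)) * g,
        (((m1 0 0).mul (R0.of_poly _)).sub ((m1 1 0).mul (R0.of_poly _))).mul hg, ?_⟩
      show v 1 - io (X 1) = _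
      have h0' := hm 0
      have h1' := hm 1
      have : (v 1 - io (X 1)) * D = io (X 0 * X 1) * (M 0 0 * io (N 1) - M 1 0 * io (N 0)) := by
        rw [hD]
        linear_combination (M 1 0) * h0' - M 0 0 * h1'
      calc v 1 - io (X 1) = (v 1 - io (X 1)) * D * g := by rw [mul_assoc, hDg, mul_one]
        _ = _ := by rw [this]; ring
  refine ⟨hbr, ?_, ?_⟩
  · intro i s
    obtain ⟨r, hr, e⟩ := hξ i
    show Van (X s) (v i - io (X i))
    rw [e, map_mul]
    have hs := prime_X s
    have hX : ∀ j : Fin 2, Reg (X s) (io (X j)) := fun j => Reg.of_poly hs _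
    fin_cases s
    · refine ⟨io (X 1) * r, (hX 1).mul hs (hr.reg 0), ?_⟩
      show io (X 0) * io (X 1) * r = io (X 0) * (io (X 1) * r)
      ring
    · refine ⟨io (X 0) * r, (hX 0).mul hs (hr.reg 1), ?_⟩
      show io (X 0) * io (X 1) * r = io (X 1) * (io (X 0) * r)
      ring
  · intro i
    obtain ⟨r, hr, e⟩ := hξ i
    exact ⟨r, hr.reg 0, hr.reg 1, by show v i = _; rw [← e]; ring⟩

end Pool.Agent.KBir
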