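import Pool.Agent.KBir.Lead

/-! The sum of the orders of the two coordinate functions along a pole is not positive. -/

set_option autoImplicit false

noncomputable section

namespace Pool.Agent.KBir

open MvPolynomial Pool.Agent.KC2

variable {π : A2}

/-- weighted homogeneous of weight `ν` -/
def Homog (e : Fin 2 → ℤ) (ν : ℤ) (g : A2) : Prop :=
  ∀ m, coeff m g ≠ 0 → e 0 * m 0 + e 1 * m 1 = ν

lemma Homog.pderiv {e : Fin 2 → ℤ} {ν : ℤ} {g : A2} (h : Homog e ν g) (i : Fin 2) :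
    Homog e (ν - e i) (pderiv i g) := by
  intro m hm
  rw [coeff_pderiv] at hm
  have := h _ (left_ne_zero_of_mul hm)
  fin_cases i
  · simp at this ⊢; linarith
  · simp at this ⊢; linarith

/-- the tangential derivative of the weight-zero monomial vanishes -/
theorem tangent (hπ : Prime π) (e : Fin 2 → ℤ) (u : Fin 2 → K2) (hu : ∀ i, HasOrd π (u i) 0)
    (hex : ∃ (g : A2) (ν : ℤ), g ≠ 0 ∧ Homog e ν g ∧ Van π (aeval u g)) :
    Van π (algebraMap ℂ K2 (e 1) * (u 1 * brK (io π) (u 0))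
      - algebraMap ℂ K2 (e 0) * (u 0 * brK (io π) (u 1))) := by
  classical
  have hur : ∀ i, Reg π (u i) := fun i => ((hasOrd_zero_iff hπ).1 (hu i)).1
  -- choose a form of least degree
  obtain ⟨g, ⟨hg0, ν, hgh, hgv⟩, hgmin⟩ : ∃ g : A2, (g ≠ 0 ∧ ∃ ν, Homog e ν g ∧ Van π (aeval u g)) ∧
      ∀ g' : A2, (g' ≠ 0 ∧ ∃ ν, Homog e ν g' ∧ Van π (aeval u g')) →
        g.totalDegree ≤ g'.totalDegree := by
    obtain ⟨g, ν, h1, h2, h3⟩ := hex
    have hne : ({n : ℕ | ∃ g : A2, (g ≠ 0 ∧ ∃ ν, Homog e ν g ∧ Van π (aeval u g)) ∧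
        g.totalDegree = n} : Set ℕ).Nonempty := ⟨g.totalDegree, g, ⟨h1, ν, h2, h3⟩, rfl⟩
    obtain ⟨g1, hg1, hd⟩ := Nat.sInf_mem hne
    refine ⟨g1, hg1, fun g' hg' => ?_⟩
    rw [hd]
    exact Nat.sInf_le ⟨g', hg', rfl⟩
  have hsmall : ∀ i, pderiv i g ≠ 0 → ¬ Van π (aeval u (pderiv i g)) := by
    intro i hi hv
    have := hgmin _ ⟨hi, _, hgh.pderiv i, hv⟩
    exact absurd (totalDegree_pderiv_lt i g hi) (by omega)
  set p0 := aeval u (pderiv 0 g) with hp0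
  set p1 := aeval u (pderiv 1 g) with hp1
  have hp0r : Reg π p0 := Reg.aeval hπ u hur _
  have hp1r : Reg π p1 := Reg.aeval hπ u hur _
  have hnv : ¬ Van π p0 ∨ ¬ Van π p1 := by
    by_cases h0 : pderiv 0 g = 0
    · by_cases h1 : pderiv 1 g = 0
      · exfalso
        have hC := eq_C_of_pderiv g h0 h1
        have hc : coeff 0 g ≠ 0 := by
          intro h; rw [h, map_zero] at hC; exact hg0 hC
        rw [hC, aeval_C] at hgv
        exact not_van_const hπ hc hgv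
      · exact Or.inr (hsmall 1 h1)
    · exact Or.inl (hsmall 0 h0)
  -- two relations
  have hA : Van π (algebraMap ℂ K2 (e 0) * (u 0 * p0) + algebraMap ℂ K2 (e 1) * (u 1 * p1)) := by
    have := congrArg (aeval u) (euler e ν g hgh)
    simp only [map_add, map_mul, aeval_C, aeval_X] at this
    rw [← hp0, ← hp1] at this
    rw [this]
    exact hgv.reg_mul hπ (Reg.const hπ _)
  have hB : Van π (p0 * brK (io π) (u 0) + p1 * brK (io π) (u 1)) := by
    have h1 := hgv.brK_left hπ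
    have h2 : brK (io π) (aeval u g) = p0 * brK (io π) (u 0) + p1 * brK (io π) (u 1) := by
      simp only [brK, dK_aeval]
      rw [← hp0, ← hp1]; ring
    rwa [h2] at h1
  set δ0 := brK (io π) (u 0) with hδ0
  set δ1 := brK (io π) (u 1) with hδ1
  have hδ0r : Reg π δ0 := (Reg.of_poly hπ π).brK hπ (hur 0)
  have hδ1r : Reg π δ1 := (Reg.of_poly hπ π).brK hπ (hur 1)
  set k0 := algebraMap ℂ K2 (e 0 : ℂ) with hk0
  set k1 := algebraMap ℂ K2 (e 1 : ℂ) with hk1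
  have hk0r : Reg π k0 := Reg.const hπ _
  have hk1r : Reg π k1 := Reg.const hπ _
  have hDr : Reg π (k1 * (u 1 * δ0) - k0 * (u 0 * δ1)) :=
    (hk1r.mul hπ ((hur 1).mul hπ hδ0r)).sub hπ (hk0r.mul hπ ((hur 0).mul hπ hδ1r))
  have h0 : Van π (p0 * (k1 * (u 1 * δ0) - k0 * (u 0 * δ1))) := by
    have e1 : p0 * (k1 * (u 1 * δ0) - k0 * (u 0 * δ1))
        = (k1 * u 1) * (p0 * δ0 + p1 * δ1) - δ1 * (k0 * (u 0 * p0) + k1 * (u 1 * p1)) := by ring
    rw [e1]
    exact (hB.reg_mul hπ (hk1r.mul hπ (hur 1))).sub hπ (hA.reg_mul hπ hδ1r)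
  have h1 : Van π (p1 * (k1 * (u 1 * δ0) - k0 * (u 0 * δ1))) := by
    have e1 : p1 * (k1 * (u 1 * δ0) - k0 * (u 0 * δ1))
        = δ0 * (k0 * (u 0 * p0) + k1 * (u 1 * p1)) - (k0 * u 0) * (p0 * δ0 + p1 * δ1) := by ring
    rw [e1]
    exact (hA.reg_mul hπ hδ0r).sub hπ (hB.reg_mul hπ (hk0r.mul hπ (hur 0)))
  rcases hnv with h | h
  · exact (h0.mul_cases hπ hp0r hDr).resolve_left h
  · exact (h1.mul_cases hπ hp1r hDr).resolve_left h

/-- the bracket in terms of the tangential derivative -/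
theorem brK_factor (hπ : Prime π) (e : Fin 2 → ℤ) (u : Fin 2 → K2) :
    brK (io π ^ e 0 * u 0) (io π ^ e 1 * u 1) = io π ^ (e 0 + e 1 - 1) * (io π * brK (u 0) (u 1)
      - (algebraMap ℂ K2 (e 1) * (u 1 * brK (io π) (u 0))
      - algebraMap ℂ K2 (e 0) * (u 0 * brK (io π) (u 1)))) := by
  have hp := io_ne hπ.ne_zero
  have hz : ∀ (i : Fin 2) (n : ℤ), dK i (io π ^ n) = algebraMap ℂ K2 n * (io π ^ (n - 1) * dK i (io π)) := by
    intro i n
    rw [Derivation.leibniz_zpow, smul_eq_mul, zsmul_eq_mul]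
    congr 1
    simp
  have e1 : io π ^ (e 0 + e 1 - 1) * io π = io π ^ (e 0) * io π ^ (e 1) := by
    rw [← zpow_add_one₀ hp, ← zpow_add₀ hp]; congr 1; ring
  have e2 : io π ^ (e 0 - 1) * io π ^ (e 1) = io π ^ (e 0 + e 1 - 1) := by
    rw [← zpow_add₀ hp]; congr 1; ring
  have e3 : io π ^ (e 0) * io π ^ (e 1 - 1) = io π ^ (e 0 + e 1 - 1) := by
    rw [← zpow_add₀ hp]; congr 1; ring
  have e4 : io π ^ (e 0 - 1) * io π ^ (e 1 - 1) * io π = io π ^ (e 0 + e 1 - 1) := by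
    rw [← zpow_add₀ hp, ← zpow_add_one₀ hp]; congr 1; ring
  simp only [brK, Derivation.leibniz, smul_eq_mul, hz]
  generalize dK 0 (io π) = P0
  generalize dK 1 (io π) = P1
  generalize dK 0 (u 0) = U00
  generalize dK 1 (u 0) = U10
  generalize dK 0 (u 1) = U01
  generalize dK 1 (u 1) = U11
  generalize algebraMap ℂ K2 (e 0 : ℂ) = k0
  generalize algebraMap ℂ K2 (e 1 : ℂ) = k1
  generalize io π ^ (e 0 + e 1 - 1) = q at *
  generalize io π ^ (e 0 - 1) = a' at *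
  generalize io π ^ (e 1 - 1) = b' at *
  generalize io π ^ (e 0) = a at *
  generalize io π ^ (e 1) = b at *
  linear_combination (-(U00 * U11 - U10 * U01)) * e1 + (u 0 * k0 * (P0 * U11 - P1 * U01)) * e2
    + (u 1 * k1 * (U00 * P1 - U10 * P0)) * e3

/-- Claim 2. -/
theorem ord_sum_nonpos (hπ : Prime π) (e : Fin 2 → ℤ) (u v : Fin 2 → K2)
    (hv : ∀ i, v i = io π ^ e i * u i) (hu : ∀ i, HasOrd π (u i) 0)
    (hbr : brK (v 0) (v 1) = 1)
    (hex : ∃ (g : A2) (ν : ℤ), g ≠ 0 ∧ Homog e ν g ∧ Van π (aeval u g)) :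
    e 0 + e 1 ≤ 0 := by
  have hur : ∀ i, Reg π (u i) := fun i => ((hasOrd_zero_iff hπ).1 (hu i)).1
  have ht := tangent hπ e u hu hex
  rw [hv 0, hv 1, brK_factor hπ e u] at hbr
  by_contra hcon
  push Not at hcon
  apply not_van_one hπ (π := π)
  rw [← hbr]
  have hp := io_ne hπ.ne_zero
  have hX : Van π (io π) := ⟨1, Reg.one hπ, by rw [mul_one]⟩
  have h1 : Van π (io π * brK (u 0) (u 1)
      - (algebraMap ℂ K2 (e 1) * (u 1 * brK (io π) (u 0))
      - algebraMap ℂ K2 (e 0) * (u 0 * brK (io π) (u 1)))) :=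
    (hX.mul_reg hπ ((hur 0).brK hπ (hur 1))).sub hπ ht
  obtain ⟨k, hk⟩ := Int.eq_ofNat_of_zero_le (by omega : 0 ≤ e 0 + e 1 - 1)
  rw [hk]
  exact h1.reg_mul hπ ((hasOrd_pow hπ _).reg hπ (by omega))

end Pool.Agent.KBir
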